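import Pool.Agent.Lib.MP_be1941_al.RP.SpecR
import Pool.Agent.Lib.MP_be1941_al.RB.SpecB
import Pool.Agent.Lib.MP_be1941_al.RP.UOP
import Pool.Agent.Lib.MP_be1941_al.X.SpecD
import Pool.Agent.Lib.MP_be1941_al.X.REL
import Pool.Agent.Lib.MP_be1941_al.X.PSB

section
/-!
# MP_be1941_al, blocks RP and RB: `RP.SpecREPA` gives `RB.SpecPAIR`
-/
set_option autoImplicit false

namespace Pool.Agent.Lib.MPbe1941.RP

open Pool.Agent.Lib.MPbe1941

theorem specPAIR (hREPA : SpecREPA) : RB.SpecPAIR := by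
  intro G _ _ F H K kap hp E bet hEH hEc hEf hEn hb1 hbm
  have hp2 : IsPair F K kap :=
    { Fn := hp.Fn
      le := hp.KF
      comm := hp.FK
      one := hp.one
      mul := hp.mul
      inv := fun f hf x hx => ⟨hp.Kn f hf x hx, hp.inv x hx f hf⟩
      nd := hp.ram }
  exact hREPA G F K H kap hp2 hp.sup hp.inf hp.cop E bet hEH hEc hEf hEn hb1 hbm

end Pool.Agent.Lib.MPbe1941.RP
end

section
/-!
# MP_be1941_al, block RP: everything without hypotheses
-/
set_option autoImplicit false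

namespace Pool.Agent.Lib.MPbe1941.RP

open Pool.Agent.Lib.MPbe1941

theorem allAVG : SpecAVG := specAVG specBAS

theorem allCEN : SpecCEN := specCEN allAVG

theorem allIMP : SpecIMP := specIMP specBAS allAVG allCEN

theorem allHOM : SpecHOM := specHOM specBAS allCEN allIMP (specDET specBAS)

theorem allUOP : SpecUOP := specUOP specBAS allHOM

theorem allEPS : SpecEPS := specEPS specBAS allUOP

theorem allREPA : SpecREPA := specREPA specBAS allEPS specIRR specIDM (specDSQ specBAS)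

/-- the pairs theorem, as used in block RB -/
theorem allPAIR : RB.SpecPAIR := specPAIR allREPA

/-- Ito's theorem (easy direction) -/
theorem allITO : SpecITO := specITOR specBAS specIDM specDIV specEIG

end Pool.Agent.Lib.MPbe1941.RP
end

section
/-!
# MP_be1941_al EXACT, HUP: the theorem from the reduction and the two cases
-/
set_option autoImplicit false

namespace Pool.Agent.Lib.MPbe1941.X

open Pool.Agent.Lib.MPbe1941
open Pool.Agent.Lib.MPbe1941.XF

theorem specHUP (hRII : SpecRII) (hDI : SpecDI) (hDII : SpecDII) : SpecHUP := by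
  classical
  intro G _ _ hG
  have hfin : {p : ℕ | p.Prime ∧ ∃ W : FDRep ℂ G, CategoryTheory.Simple W ∧
      p ∣ Module.finrank ℂ W}.Finite := by
    refine ((Nat.card G).primeFactors.finite_toSet).subset ?_
    rintro p ⟨hp, W, hW, hpW⟩
    obtain ⟨ρ, hρ⟩ := (RP.specFDR G _).2 ⟨W, hW, rfl⟩
    have h := RP.specDIV G _ ρ hρ
    rw [Module.finrank_fin_fun] at h
    rw [Finset.mem_coe, Nat.mem_primeFactors]
    exact ⟨hp, hpW.trans h, Nat.card_pos.ne'⟩
  obtain ⟨d, hd, hcard⟩ := hRII (fun H W _ _ _ C T h => hDI H W C T h)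
    (fun H X Zd _ _ _ _ _ C T p R h => hDII H X Zd C T p R h) G hG hfin.toFinset (by
      intro r hr
      rw [Set.Finite.mem_toFinset] at hr
      obtain ⟨hp, W, hW, hpW⟩ := hr
      refine ⟨hp, fun hN => ?_⟩
      exact RP.allITO G r hp hN _ ((RP.specFDR G _).2 ⟨W, hW, rfl⟩) hpW)
  obtain ⟨V, hV, hVd⟩ := (RP.specFDR G d).1 hd
  refine ⟨V, hV, ?_⟩
  rw [Set.ncard_eq_toFinset_card _ hfin]
  refine hcard.trans (Nat.mul_le_mul_left 2 (Finset.card_le_card ?_))
  intro r hr
  rw [Finset.mem_filter, Set.Finite.mem_toFinset] at hr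
  obtain ⟨ρ, hρ⟩ := hd
  have h := RP.specDIV G _ ρ hρ
  rw [Module.finrank_fin_fun] at h
  rw [Nat.mem_primeFactors, hVd]
  exact ⟨hr.1.1, hr.2, fun h0 => Nat.card_pos.ne' (Nat.eq_zero_of_zero_dvd (h0 ▸ h))⟩

end Pool.Agent.Lib.MPbe1941.X
end

section
/-!
# MP_be1941_al, exact bound: states from stabilisers

`stab_state`: for a fully ramified pair `(K, κ)` in `F` (see `RP.IsPair`; `F = K` is allowed: then
`κ` is an invariant linear character of the normal subgroup `F`), `G = F H`, `F ∩ H = 1`,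
`|F : K|` prime to `|H|` and `J` the stabiliser of `(K, κ)` in `H`: every degree `m` of `J` gives a
degree `d` of `G` divisible by `|H : J| m` and by all primes dividing `|F : K|`.
-/
set_option autoImplicit false

namespace Pool.Agent.Lib.MPbe1941.XF.ST

open Pool.Agent.Lib.MPbe1941 Pool.Agent.Lib.MPbe1941.RP Representation

section conv

variable {J : Type} [Group J] [Fintype J] {V : Type} [AddCommGroup V] [Module ℂ V]
  [FiniteDimensional ℂ V]

omit [Fintype J] in
theorem finrank_ne (ψ : Representation ℂ J V) (hψ : ψ.IsIrreducible) :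
    (Module.finrank ℂ V : ℂ) ≠ 0 := by
  have := hψ
  have hnt : Nontrivial V := IsSimpleModule.nontrivial (MonoidAlgebra ℂ J) ψ.asModule
  exact Nat.cast_ne_zero.2 Module.finrank_pos.ne'

/-- Schur for `∑ χ(a⁻¹) ψ(a)`. -/
theorem schur_scalar (ψ : Representation ℂ J V) (hψ : ψ.IsIrreducible) :
    ∃ c : ℂ, (∑ a : J, ψ.character a⁻¹ • ψ a) = c • (LinearMap.id : V →ₗ[ℂ] V) ∧
      c * (Module.finrank ℂ V : ℂ) = Nat.card J := by
  have := hψ
  obtain ⟨c, hc⟩ := DIVM.schur ψ hψ _ (DIVM.comm_z ψ)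
  refine ⟨c, hc, ?_⟩
  have hN : (Nat.card J : ℂ) ≠ 0 := Nat.cast_ne_zero.2 Nat.card_pos.ne'
  have h1 := congrArg (LinearMap.trace ℂ V) hc
  rw [map_sum, map_smul, LinearMap.trace_id, smul_eq_mul] at h1
  rw [← h1]
  have : Invertible (Nat.card J : ℂ) := invertibleOfNonzero hN
  have h2 := Representation.card_inv_mul_sum_char_mul_char_eq_finrank ψ ψ
  rw [Representation.IsIrreducible.finrank_intertwiningMap_self, Nat.cast_one] at h2
  have h3 : ∑ g, ψ.character g * ψ.character g⁻¹ = (Nat.card J : ℂ) := by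
    have := congrArg (fun t => (Nat.card J : ℂ) * t) h2
    simpa [mul_inv_cancel_left₀ hN] using this
  rw [← h3]
  refine Finset.sum_congr rfl fun g _ => ?_
  rw [map_smul, smul_eq_mul, mul_comm]
  rfl

/-- Convolution of an irreducible character with itself. -/
theorem conv (ψ : Representation ℂ J V) (hψ : ψ.IsIrreducible) (c : J) :
    (Module.finrank ℂ V : ℂ) * ∑ a : J, ψ.character a⁻¹ * ψ.character (a * c) =
      Nat.card J * ψ.character c := by
  obtain ⟨s, hs, hs2⟩ := schur_scalar ψ hψ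
  have h1 : ∑ a : J, ψ.character a⁻¹ * ψ.character (a * c) = s * ψ.character c := by
    have h2 := congrArg (fun f => LinearMap.trace ℂ V (f * ψ c)) hs
    simp only [Finset.sum_mul, map_sum, smul_mul_assoc, map_smul, smul_eq_mul] at h2
    have h3 : (LinearMap.id : V →ₗ[ℂ] V) * ψ c = ψ c := one_mul _
    rw [h3] at h2
    rw [show s * ψ.character c = s * LinearMap.trace ℂ V (ψ c) from rfl, ← h2]
    refine Finset.sum_congr rfl fun a _ => ?_
    rw [← map_mul]
    rfl
  rw [h1, ← hs2]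
  ring

variable {A : Type} [Ring A] [Algebra ℂ A]

/-- The element `∑ χ(a⁻¹) U_a`. -/
noncomputable def XX (ψ : Representation ℂ J V) (U : J → A) : A :=
  ∑ a : J, ψ.character a⁻¹ • U a

theorem XX_mul (ψ : Representation ℂ J V) (hψ : ψ.IsIrreducible) (U : J → A)
    (hU : ∀ a b, U (a * b) = U a * U b) :
    (Module.finrank ℂ V : ℂ) • (XX ψ U * XX ψ U) = (Nat.card J : ℂ) • XX ψ U := by
  have h1 : XX ψ U * XX ψ U =
      ∑ c : J, (∑ a : J, ψ.character a⁻¹ * ψ.character (a * c⁻¹)) • U c := by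
    unfold XX
    rw [Finset.sum_mul]
    simp_rw [Finset.sum_smul]
    rw [Finset.sum_comm]
    refine Finset.sum_congr rfl fun a _ => ?_
    rw [Finset.mul_sum]
    refine Fintype.sum_equiv (Equiv.mulLeft a) _ _ fun b => ?_
    rw [Equiv.coe_mulLeft, smul_mul_smul_comm, ← hU]
    congr 2
    have e : a * (a * b)⁻¹ = a * b⁻¹ * a⁻¹ := by group
    rw [e, ψ.char_conj]
  rw [h1, XX, Finset.smul_sum, Finset.smul_sum]
  refine Finset.sum_congr rfl fun c _ => ?_
  rw [smul_smul, smul_smul, conv ψ hψ c⁻¹]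

omit [FiniteDimensional ℂ V] in
theorem XX_comm (ψ : Representation ℂ J V) (U : J → A) (j : J) (T : A)
    (hT : ∀ a, T * U a = U (j * a * j⁻¹) * T) : T * XX ψ U = XX ψ U * T := by
  unfold XX
  rw [Finset.mul_sum, Finset.sum_mul]
  refine Fintype.sum_equiv (MulAut.conj j).toEquiv _ _ fun a => ?_
  have e : (MulAut.conj j).toEquiv a = j * a * j⁻¹ := by simp
  have e2 : (j * a * j⁻¹)⁻¹ = j * a⁻¹ * j⁻¹ := by group
  rw [e, mul_smul_comm, smul_mul_assoc, hT, e2, ψ.char_conj]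

theorem XX_comm' (ψ : Representation ℂ J V) (U : J → A) (T : A)
    (hT : ∀ a, T * U a = U a * T) : T * XX ψ U = XX ψ U * T :=
  XX_comm ψ U 1 T (fun a => by simpa using hT a)

/-- A representation on which the central idempotent of `ψ` acts as the identity has dimension
divisible by `dim ψ`. -/
theorem dvd_of_id (ψ : Representation ℂ J V) {Y : Type} [AddCommGroup Y] [Module ℂ Y]
    [FiniteDimensional ℂ Y] (τ : Representation ℂ J Y)
    (h : (Module.finrank ℂ V : ℂ) • (∑ a : J, ψ.character a⁻¹ • τ a) =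
      (Nat.card J : ℂ) • (LinearMap.id : Y →ₗ[ℂ] Y)) :
    Module.finrank ℂ V ∣ Module.finrank ℂ Y := by
  have hN : (Nat.card J : ℂ) ≠ 0 := Nat.cast_ne_zero.2 Nat.card_pos.ne'
  have : Invertible (Nat.card J : ℂ) := invertibleOfNonzero hN
  have h2 := Representation.card_inv_mul_sum_char_mul_char_eq_finrank ψ τ
  have h1 := congrArg (LinearMap.trace ℂ Y) h
  rw [map_smul, map_sum, map_smul, LinearMap.trace_id, smul_eq_mul, smul_eq_mul] at h1
  have h3 : ∑ a : J, (LinearMap.trace ℂ Y) (ψ.character a⁻¹ • τ a) =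
      ∑ g : J, τ.character g * ψ.character g⁻¹ := by
    refine Finset.sum_congr rfl fun a _ => ?_
    rw [map_smul, smul_eq_mul, mul_comm]
    rfl
  rw [h3] at h1
  have h4 : ∑ g : J, τ.character g * ψ.character g⁻¹ =
      (Nat.card J : ℂ) * (Module.finrank ℂ (IntertwiningMap ψ τ) : ℂ) := by
    rw [← h2, ← mul_assoc, mul_inv_cancel₀ hN, one_mul]
  rw [h4] at h1
  have h5 : (Module.finrank ℂ V : ℂ) * (Module.finrank ℂ (IntertwiningMap ψ τ) : ℂ) =
      Module.finrank ℂ Y := by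
    apply mul_left_cancel₀ hN
    rw [← h1]
    ring
  refine ⟨Module.finrank ℂ (IntertwiningMap ψ τ), ?_⟩
  exact_mod_cast h5.symm

end conv

section main

variable {G : Type} [Group G] [Finite G]

theorem stab_state {F K H J : Subgroup G} {κ : G → ℂ} (hp : IsPair F K κ) (hsup : F ⊔ H = ⊤)
    (hinf : F ⊓ H = ⊥) (hcop : (K.relIndex F).Coprime (Nat.card H)) (hJH : J ≤ H)
    (hJ : ∀ h ∈ H, h ∈ J ↔ FixK K κ h) {m : ℕ} (hm : IsDeg J m) :
    ∃ d, IsDeg G d ∧ (∀ r, r.Prime → r ∣ K.relIndex F → r ∣ d) ∧ J.relIndex H * m ∣ d := by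
  classical
  have hB := specBAS G F K κ hp
  have hFn := hp.Fn
  obtain ⟨ψ, hψ⟩ := hm
  have hJinf : F ⊓ J = ⊥ := le_bot_iff.1 (by rw [← hinf]; exact inf_le_inf_left F hJH)
  have hJf : ∀ j ∈ J, FixK K κ j := fun j hj => (hJ j (hJH hj)).1 hj
  have hcJ : (K.relIndex F).Coprime (Nat.card J) :=
    hcop.coprime_dvd_right (Subgroup.card_dvd_of_le hJH)
  obtain ⟨U, U1, Um, Uy, Uj, Uc⟩ := allUOP G F K κ hp J hJf hcJ hJinf
  have : Fintype J := Fintype.ofFinite J
  let UJ : J → MonoidAlgebra ℂ G := fun a => U (a : G)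
  have hUJ : ∀ a b, UJ (a * b) = UJ a * UJ b := fun a b => Um a a.2 b b.2
  have hm0 : ((m : ℕ) : ℂ) ≠ 0 := by
    have := finrank_ne ψ hψ
    rwa [Module.finrank_fin_fun] at this
  have hJ0 : (Nat.card J : ℂ) ≠ 0 := Nat.cast_ne_zero.2 Nat.card_pos.ne'
  have hK0 : (Nat.card K : ℂ) ≠ 0 := Nat.cast_ne_zero.2 Nat.card_pos.ne'
  set X := XX ψ UJ with hX
  have hXX : (m : ℂ) • (X * X) = (Nat.card J : ℂ) • X := by
    have := XX_mul ψ hψ UJ hUJ
    rwa [Module.finrank_fin_fun] at this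
  let ε : MonoidAlgebra ℂ G := ((m : ℂ) * (Nat.card J : ℂ)⁻¹) • X
  have hεdef : ε = ((m : ℂ) * (Nat.card J : ℂ)⁻¹) • X := rfl
  have hεε : ε * ε = ε := by
    rw [hεdef, smul_mul_smul_comm]
    have e : (m : ℂ) * (Nat.card J : ℂ)⁻¹ * ((m : ℂ) * (Nat.card J : ℂ)⁻¹) =
        (m : ℂ) * (Nat.card J : ℂ)⁻¹ * (Nat.card J : ℂ)⁻¹ * (m : ℂ) := by ring
    rw [e, ← smul_smul, hXX, smul_smul]
    congr 1
    field_simp
  have heX : eK K κ * X = X := by
    rw [hX, XX, Finset.mul_sum]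
    refine Finset.sum_congr rfl fun a _ => ?_
    rw [mul_smul_comm]
    congr 1
    show eK K κ * U a = U a
    rw [← U1, ← Um 1 J.one_mem a a.2, one_mul]
  have hXe : X * eK K κ = X := by
    rw [hX, XX, Finset.sum_mul]
    refine Finset.sum_congr rfl fun a _ => ?_
    rw [smul_mul_assoc]
    congr 1
    show U a * eK K κ = U a
    rw [← U1, ← Um a a.2 1 J.one_mem, mul_one]
  have heε : eK K κ * ε = ε := by rw [hεdef, mul_smul_comm, heX]
  have hεe : ε * eK K κ = ε := by rw [hεdef, smul_mul_assoc, hXe]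
  have hyε : ∀ y ∈ F, u y * ε = ε * u y := by
    intro y hy
    rw [hεdef, mul_smul_comm, smul_mul_assoc]
    congr 1
    exact XX_comm' ψ UJ _ (fun a => Uy a a.2 y hy)
  have hjε : ∀ j ∈ J, u j * ε = ε * u j := by
    intro j hj
    rw [hεdef, mul_smul_comm, smul_mul_assoc]
    congr 1
    exact XX_comm ψ UJ ⟨j, hj⟩ _ (fun a => Uj a a.2 j hj)
  have hUε : ∀ j ∈ J, U j * ε = ε * U j := by
    intro j hj
    rw [hεdef, mul_smul_comm, smul_mul_assoc]
    congr 1
    refine XX_comm ψ UJ ⟨j, hj⟩ _ (fun a => ?_)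
    show U j * U a = U (j * a * j⁻¹) * U j
    rw [← Um j hj a a.2, ← Um _ (J.mul_mem (J.mul_mem hj a.2) (J.inv_mem hj)) j hj]
    congr 1
    group
  have hε0 : ε ≠ 0 := by
    intro h0
    have h1 : ε.coeff 1 = 0 := by rw [h0]; simp
    rw [hεdef] at h1
    have h2 : X.coeff 1 = (m : ℂ) * (Nat.card K : ℂ)⁻¹ := by
      rw [hX, XX]
      rw [MonoidAlgebra.coeff_sum, Finsupp.finsetSum_apply]
      rw [Finset.sum_eq_single (1 : J)]
      · rw [MonoidAlgebra.coeff_smul, Finsupp.smul_apply]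
        have h3 : UJ 1 = eK K κ := U1
        rw [h3, hB.e1 1 K.one_mem, hp.one, inv_one, inv_one, mul_one, smul_eq_mul,
          Representation.char_one, Module.finrank_fin_fun]
      · intro a _ ha
        rw [MonoidAlgebra.coeff_smul, Finsupp.smul_apply]
        have h3 : (UJ a).coeff 1 = 0 := Uc a a.2 (fun h => ha (Subtype.ext h))
        rw [h3, smul_zero]
      · intro h
        exact absurd (Finset.mem_univ _) h
    rw [MonoidAlgebra.coeff_smul, Finsupp.smul_apply, h2, smul_eq_mul] at h1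
    have h4 : (m : ℂ) * (Nat.card J : ℂ)⁻¹ * ((m : ℂ) * (Nat.card K : ℂ)⁻¹) ≠ 0 :=
      mul_ne_zero (mul_ne_zero hm0 (inv_ne_zero hJ0)) (mul_ne_zero hm0 (inv_ne_zero hK0))
    exact h4 h1
  obtain ⟨d, ρ, hρ, hρε⟩ := specIRR G ε hε0
  have hall : ∀ g : G, ∃ y ∈ F, ∃ h ∈ H, y * h = g := fun g =>
    (REPAM.mem_sup F H hFn g).1 (by rw [hsup]; trivial)
  have hcardG : Nat.card G = Nat.card F * Nat.card H := by
    rw [← REPAM.card_sup F H hFn hinf, hsup]; exact (Subgroup.card_top).symm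
  have hFpos : 0 < Nat.card F := Nat.card_pos
  have hfy : ∀ y ∈ F, ∀ h, FixK K κ (y * h) ↔ FixK K κ h := by
    intro y hy h
    constructor
    · intro h2
      have := hB.fmul y⁻¹ (y * h) (hB.finv y (hp.inv y hy)) h2
      simpa using this
    · exact hB.fmul y h (hp.inv y hy)
  have hd1 : d * Nat.card J = Nat.card H *
      Module.finrank ℂ (LinearMap.range (ρ.asAlgebraHom ε)) := by
    have := specIDM G (Fin d → ℂ) ρ hρ (F ⊔ J) ε hεε ?_ ?_ hρε
    · rw [REPAM.card_sup F J hFn hJinf, hcardG, Module.finrank_fin_fun] at this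
      apply Nat.eq_of_mul_eq_mul_left hFpos
      calc _ = d * (Nat.card F * Nat.card J) := by ring
        _ = _ := by rw [this]; ring
    · intro s hs
      obtain ⟨y, hy, h, hh, rfl⟩ := (REPAM.mem_sup F J hFn s).1 hs
      have e : (u (y * h) : MonoidAlgebra ℂ G) = u y * u h := (UOPM.uu y h).symm
      rw [e, mul_assoc, hjε h hh, ← mul_assoc, hyε y hy, mul_assoc]
    · intro g hg
      obtain ⟨y, hy, h, hh, rfl⟩ := hall g
      have h1 : ¬ FixK K κ (y * h) := by
        intro h2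
        exact hg ((REPAM.mem_iff hFn hJH hinf hy hh).2 ((hJ h hh).2 ((hfy y hy h).1 h2)))
      have h2 := hB.ort _ h1
      calc ε * u (y * h) * ε = (ε * eK K κ) * u (y * h) * (eK K κ * ε) := by rw [hεe, heε]
        _ = ε * (eK K κ * u (y * h) * eK K κ) * ε := by simp only [mul_assoc]
        _ = 0 := by rw [h2, mul_zero, zero_mul]
  -- the operators on the range of `ρ(ε)`
  set E := ρ.asAlgebraHom ε with hE
  have hEE : ∀ v, E (E v) = E v := by
    intro v
    rw [← Module.End.mul_apply, hE, ← map_mul, hεε]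
  have hstab : ∀ a : MonoidAlgebra ℂ G, a * ε = ε * a →
      ∀ v ∈ LinearMap.range E, ρ.asAlgebraHom a v ∈ LinearMap.range E := by
    rintro a ha v ⟨w, rfl⟩
    refine ⟨ρ.asAlgebraHom a w, ?_⟩
    have h2 := congrArg (fun a => ρ.asAlgebraHom a w) ha
    simp only [map_mul, Module.End.mul_apply] at h2
    exact h2.symm
  have hmY : m ∣ Module.finrank ℂ (LinearMap.range E) := by
    let τ : Representation ℂ J (LinearMap.range E) :=
      { toFun := fun j => (ρ.asAlgebraHom (U j)).restrict (hstab _ (hUε j j.2))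
        map_one' := by
          ext ⟨v, w, rfl⟩
          have h := congrArg (fun a => ρ.asAlgebraHom a w) heε
          simp only [map_mul, Module.End.mul_apply] at h
          simp only [LinearMap.coe_restrict_apply, Module.End.one_apply]
          have e : U ((1 : J) : G) = eK K κ := U1
          rw [e]
          exact congrFun h _
        map_mul' := by
          intro x y
          ext v
          simp only [LinearMap.coe_restrict_apply, Module.End.mul_apply]
          have e : U ((x * y : J) : G) = U x * U y := Um x x.2 y y.2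
          rw [e, map_mul, Module.End.mul_apply] }
    have h := dvd_of_id ψ τ ?_
    · rwa [Module.finrank_fin_fun] at h
    · rw [Module.finrank_fin_fun]
      ext ⟨v, w, rfl⟩ i
      simp only [LinearMap.smul_apply, LinearMap.sum_apply, LinearMap.id_apply,
        Submodule.coe_smul, Submodule.coe_sum]
      have h1 : ρ.asAlgebraHom ε (E w) = E w := hEE w
      have h2 : ρ.asAlgebraHom ε = ((m : ℂ) * (Nat.card J : ℂ)⁻¹) •
          ∑ a : J, ψ.character a⁻¹ • ρ.asAlgebraHom (U a) := by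
        rw [hεdef, map_smul, hX, XX, map_sum]
        simp only [map_smul]
        rfl
      rw [h2] at h1
      simp only [LinearMap.smul_apply, LinearMap.sum_apply] at h1
      have h3 : (m : ℂ) • (∑ a : J, ψ.character a⁻¹ • (ρ.asAlgebraHom (U a)) (E w)) =
          (Nat.card J : ℂ) • E w := by
        have h4 := congrArg (fun v => (Nat.card J : ℂ) • v) h1
        simp only [smul_smul] at h4
        rw [← h4]
        congr 1
        field_simp
      exact congrFun h3 i
  have hdF : K.relIndex F ∣ Module.finrank ℂ (LinearMap.range E) ^ 2 := by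
    have hs : ∀ g : G, ρ.asAlgebraHom (u g) = ρ g := fun g =>
      Representation.asAlgebraHom_single_one ρ g
    have hst : ∀ f : F, ∀ v ∈ LinearMap.range E, ρ (f : G) v ∈ LinearMap.range E := by
      intro f v hv
      have := hstab (u (f : G)) (hyε f f.2) v hv
      rwa [hs] at this
    let σ : Representation ℂ F (LinearMap.range E) :=
      { toFun := fun f => (ρ (f : G)).restrict (hst f)
        map_one' := by
          ext v
          simp
        map_mul' := by
          intro x y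
          ext v
          simp }
    have hmain := DSQM.main (K.subgroupOf F) (fun x => κ (x : G)) σ ?_ ?_ ?_
    · exact hmain
    · intro x hx
      rw [Subgroup.mem_subgroupOf] at hx
      ext ⟨v, w, rfl⟩
      have h : u (x : G) * ε = κ x • ε := by
        rw [← heε, ← mul_assoc, hB.ke (x : G) hx, smul_mul_assoc]
      have h2 := congrArg (fun a => ρ.asAlgebraHom a w) h
      simp only [map_mul, hs, Module.End.mul_apply, map_smul, LinearMap.smul_apply] at h2
      simpa [σ] using congrFun h2 _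
    · intro x hx
      rw [Subgroup.mem_subgroupOf] at hx
      have h := hp.mul x hx (x : G)⁻¹ (K.inv_mem hx)
      rw [mul_inv_cancel, hp.one] at h
      simpa using h.symm
    · intro x hx
      rw [Subgroup.mem_subgroupOf] at hx
      obtain ⟨y, hy, hy2⟩ := hp.nd x x.2 hx
      refine ⟨⟨y, hy⟩, ?_, ?_⟩
      · rw [Subgroup.mem_subgroupOf]
        simpa using hp.comm x x.2 y hy
      · simpa using hy2
  have hd : d = J.relIndex H * Module.finrank ℂ (LinearMap.range E) := by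
    rw [REPAM.card_rel hJH] at hd1
    have hJpos : 0 < Nat.card J := Nat.card_pos
    apply Nat.eq_of_mul_eq_mul_left hJpos
    rw [mul_comm, hd1]
    ring
  refine ⟨d, ⟨ρ, hρ⟩, ?_, ?_⟩
  · intro r hr hrd
    have h4 := hr.dvd_of_dvd_pow (dvd_trans hrd hdF)
    rw [hd]
    exact Dvd.dvd.mul_left h4 _
  · rw [hd]
    exact Nat.mul_dvd_mul_left _ hmY

end main

end Pool.Agent.Lib.MPbe1941.XF.ST
end

section
/-!
# MP_be1941_al, exact bound: degrees of normal subgroups

`normal_deg`: if `N` is normal in `G` then every degree of `N` divides a degree of `G`.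
-/
set_option autoImplicit false

namespace Pool.Agent.Lib.MPbe1941.XF.ST

open Pool.Agent.Lib.MPbe1941 Pool.Agent.Lib.MPbe1941.RP Representation

section orth

variable {J : Type} [Group J] [Fintype J] {V W : Type} [AddCommGroup V] [Module ℂ V]
  [FiniteDimensional ℂ V] [AddCommGroup W] [Module ℂ W] [FiniteDimensional ℂ W]

theorem orth_sum (ψ : Representation ℂ J V) (hψ : ψ.IsIrreducible) (φ : Representation ℂ J W)
    (hφ : φ.IsIrreducible) (hne : ψ.character ≠ φ.character) (c : J) :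
    ∑ a : J, ψ.character a⁻¹ * φ.character (a * c) = 0 := by
  have := hψ
  have := hφ
  have hcomm : ∀ h, (XX ψ (fun a => φ a)) ∘ₗ φ h = φ h ∘ₗ (XX ψ (fun a => φ a)) := by
    intro h
    have := XX_comm (A := Module.End ℂ W) ψ (fun a => φ a) h (φ h) (fun a => by
      rw [← map_mul, ← map_mul]
      congr 1
      group)
    exact this.symm
  obtain ⟨s, hs⟩ := DIVM.schur φ hφ _ hcomm
  have hN : (Nat.card J : ℂ) ≠ 0 := Nat.cast_ne_zero.2 Nat.card_pos.ne'
  have : Invertible (Nat.card J : ℂ) := invertibleOfNonzero hN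
  have h1 : (Nat.card J : ℂ)⁻¹ * ∑ g : J, φ.character g * ψ.character g⁻¹ = 0 := by
    have h2 := Representation.char_orthonormal φ ψ
    rw [if_neg] at h2
    · exact h2
    · rintro ⟨e⟩
      exact hne (Representation.char_iso e)
  have h3 : ∑ g : J, φ.character g * ψ.character g⁻¹ = 0 := by
    rcases mul_eq_zero.1 h1 with h | h
    · exact absurd h (inv_ne_zero hN)
    · exact h
  have h4 : s * (Module.finrank ℂ W : ℂ) = 0 := by
    have h5 := congrArg (LinearMap.trace ℂ W) hs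
    rw [map_smul, LinearMap.trace_id, smul_eq_mul, XX, map_sum] at h5
    rw [← h5, ← h3]
    refine Finset.sum_congr rfl fun g _ => ?_
    rw [map_smul, smul_eq_mul, mul_comm]
    rfl
  have h5 : s = 0 := by
    rcases mul_eq_zero.1 h4 with h | h
    · exact h
    · exact absurd h (finrank_ne φ hφ)
  rw [h5, zero_smul] at hs
  have h6 := congrArg (fun f => LinearMap.trace ℂ W (f * φ c)) hs
  simp only [XX, Finset.sum_mul, map_sum, smul_mul_assoc, map_smul, smul_eq_mul, zero_mul,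
    map_zero] at h6
  rw [← h6]
  refine Finset.sum_congr rfl fun a _ => ?_
  rw [← map_mul]
  rfl

variable {A : Type} [Ring A] [Algebra ℂ A]

theorem XX_orth (ψ : Representation ℂ J V) (hψ : ψ.IsIrreducible) (φ : Representation ℂ J W)
    (hφ : φ.IsIrreducible) (hne : ψ.character ≠ φ.character) (U : J → A)
    (hU : ∀ a b, U (a * b) = U a * U b) : XX ψ U * XX φ U = 0 := by
  have h1 : XX ψ U * XX φ U =
      ∑ c : J, (∑ a : J, ψ.character a⁻¹ * φ.character (a * c⁻¹)) • U c := by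
    unfold XX
    rw [Finset.sum_mul]
    simp_rw [Finset.sum_smul]
    rw [Finset.sum_comm]
    refine Finset.sum_congr rfl fun a _ => ?_
    rw [Finset.mul_sum]
    refine Fintype.sum_equiv (Equiv.mulLeft a) _ _ fun b => ?_
    rw [Equiv.coe_mulLeft, smul_mul_smul_comm, ← hU]
    congr 2
    have e : a * (a * b)⁻¹ = a * b⁻¹ * a⁻¹ := by group
    rw [e, φ.char_conj]
  rw [h1]
  refine Finset.sum_eq_zero fun c _ => ?_
  rw [orth_sum ψ hψ φ hφ hne, zero_smul]

end orth

section normal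

variable {G : Type} [Group G] [Finite G]

/-- precomposition with an automorphism -/
theorem irr_comp {J : Type} [Group J] {V : Type} [AddCommGroup V] [Module ℂ V]
    (ψ : Representation ℂ J V) (hψ : ψ.IsIrreducible) (σ : J ≃* J) :
    IsIrreducible (show Representation ℂ J V from MonoidHom.comp ψ σ.toMonoidHom) := by
  let e : Subrepresentation ψ ≃o
      Subrepresentation (show Representation ℂ J V from MonoidHom.comp ψ σ.toMonoidHom) :=
    { toFun := fun S => ⟨S.toSubmodule, fun g _ hv => S.apply_mem_toSubmodule (σ g) hv⟩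
      invFun := fun S => ⟨S.toSubmodule, fun g v hv => by
        have := S.apply_mem_toSubmodule (σ.symm g) hv
        change ψ (σ (σ.symm g)) v ∈ _ at this
        rwa [σ.apply_symm_apply] at this⟩
      left_inv := fun _ => rfl
      right_inv := fun _ => rfl
      map_rel_iff' := Iff.rfl }
  exact (OrderIso.isSimpleOrder_iff e).1 hψ

/-- Every degree of a normal subgroup divides a degree of the group. -/
theorem normal_deg {N : Subgroup G} (hN : N.Normal) {m : ℕ} (hm : IsDeg N m) :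
    ∃ d, IsDeg G d ∧ m ∣ d := by
  classical
  obtain ⟨ψ, hψ⟩ := hm
  have : Fintype N := Fintype.ofFinite N
  let U : N → MonoidAlgebra ℂ G := fun a => u (a : G)
  have hU : ∀ a b, U (a * b) = U a * U b := fun a b => (UOPM.uu (a : G) (b : G)).symm
  have hm0 : ((m : ℕ) : ℂ) ≠ 0 := by
    have := finrank_ne ψ hψ
    rwa [Module.finrank_fin_fun] at this
  have hN0 : (Nat.card N : ℂ) ≠ 0 := Nat.cast_ne_zero.2 Nat.card_pos.ne'
  set X := XX ψ U with hX
  have hXX : (m : ℂ) • (X * X) = (Nat.card N : ℂ) • X := by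
    have := XX_mul ψ hψ U hU
    rwa [Module.finrank_fin_fun] at this
  let ε : MonoidAlgebra ℂ G := ((m : ℂ) * (Nat.card N : ℂ)⁻¹) • X
  have hεdef : ε = ((m : ℂ) * (Nat.card N : ℂ)⁻¹) • X := rfl
  have hεε : ε * ε = ε := by
    rw [hεdef, smul_mul_smul_comm]
    have e : (m : ℂ) * (Nat.card N : ℂ)⁻¹ * ((m : ℂ) * (Nat.card N : ℂ)⁻¹) =
        (m : ℂ) * (Nat.card N : ℂ)⁻¹ * (Nat.card N : ℂ)⁻¹ * (m : ℂ) := by ring
    rw [e, ← smul_smul, hXX, smul_smul]
    congr 1
    field_simp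
  -- conjugation by `g`
  let cj : G → N ≃* N := fun g => MulAut.conjNormal (H := N) g
  have hcj : ∀ g (a : N), ((cj g a : N) : G) = g * a * g⁻¹ := fun g a =>
    MulAut.conjNormal_apply g a
  let ψg : G → Representation ℂ N (Fin m → ℂ) := fun g =>
    (show Representation ℂ N (Fin m → ℂ) from MonoidHom.comp ψ (cj g).toMonoidHom)
  have hψg : ∀ g, (ψg g).IsIrreducible := fun g => irr_comp ψ hψ (cj g)
  have hchar : ∀ g a, (ψg g).character a = ψ.character (cj g a) := fun g a => rfl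
  have hconj : ∀ g, u g * X = XX (ψg g⁻¹) U * u g := by
    intro g
    rw [hX]
    unfold XX
    rw [Finset.mul_sum, Finset.sum_mul]
    refine Fintype.sum_equiv (cj g).toEquiv _ _ fun a => ?_
    rw [hchar, mul_smul_comm, smul_mul_assoc]
    have e1 : (cj g⁻¹) ((cj g).toEquiv a)⁻¹ = a⁻¹ := by
      apply Subtype.ext
      have e2 : (((cj g).toEquiv a : N) : G) = g * a * g⁻¹ := hcj g a
      rw [hcj, Subgroup.coe_inv, e2, Subgroup.coe_inv]
      group
    rw [e1]
    congr 1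
    show u g * u (a : G) = u (((cj g).toEquiv a : N) : G) * u g
    have e2 : (((cj g).toEquiv a : N) : G) = g * a * g⁻¹ := hcj g a
    rw [e2, UOPM.uu, UOPM.uu, inv_mul_cancel_right]
  let I : Subgroup G :=
    { carrier := {g | ∀ a : N, ψ.character (cj g a) = ψ.character a}
      one_mem' := fun a => by
        have : cj 1 a = a := Subtype.ext (by rw [hcj]; group)
        rw [this]
      mul_mem' := by
        intro g h hg hh a
        have e : cj (g * h) a = cj g (cj h a) := Subtype.ext (by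
          rw [hcj, hcj, hcj]; group)
        rw [e, hg, hh]
      inv_mem' := by
        intro g hg a
        have e : cj g (cj g⁻¹ a) = a := Subtype.ext (by rw [hcj, hcj]; group)
        rw [← hg (cj g⁻¹ a), e] }
  have hI : ∀ g, g ∈ I ↔ ∀ a : N, ψ.character (cj g a) = ψ.character a := fun g => Iff.rfl
  have hIc : ∀ g ∈ I, u g * ε = ε * u g := by
    intro g hg
    rw [hεdef, mul_smul_comm, smul_mul_assoc]
    congr 1
    rw [hconj g]
    congr 1
    rw [hX]
    unfold XX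
    refine Finset.sum_congr rfl fun a _ => ?_
    rw [hchar, (hI g⁻¹).1 (I.inv_mem hg)]
  have hIo : ∀ g, g ∉ I → ε * u g * ε = 0 := by
    intro g hg
    have hne : ψ.character ≠ (ψg g⁻¹).character := by
      intro h
      apply hg
      have : g⁻¹ ∈ I := by
        intro a
        exact (congrFun h a).symm
      have := I.inv_mem this
      rwa [inv_inv] at this
    rw [hεdef, smul_mul_assoc, smul_mul_assoc, mul_smul_comm, mul_assoc, hconj g, ← mul_assoc,
      XX_orth ψ hψ (ψg g⁻¹) (hψg _) hne U hU, zero_mul, smul_zero, smul_zero]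
  have hε0 : ε ≠ 0 := by
    intro h0
    have h1 : ε.coeff 1 = 0 := by rw [h0]; simp
    rw [hεdef] at h1
    have h2 : X.coeff 1 = (m : ℂ) := by
      rw [hX, XX]
      rw [MonoidAlgebra.coeff_sum, Finsupp.finsetSum_apply]
      rw [Finset.sum_eq_single (1 : N)]
      · rw [MonoidAlgebra.coeff_smul, Finsupp.smul_apply]
        have h3 : U 1 = 1 := rfl
        rw [h3, inv_one, Representation.char_one, Module.finrank_fin_fun, smul_eq_mul]
        simp
      · intro a _ ha
        rw [MonoidAlgebra.coeff_smul, Finsupp.smul_apply]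
        have h3 : (U a).coeff 1 = 0 := by
          have : (a : G) ≠ 1 := fun h => ha (Subtype.ext h)
          simp [U, this]
        rw [h3, smul_zero]
      · intro h
        exact absurd (Finset.mem_univ _) h
    rw [MonoidAlgebra.coeff_smul, Finsupp.smul_apply, h2, smul_eq_mul] at h1
    exact mul_ne_zero (mul_ne_zero hm0 (inv_ne_zero hN0)) hm0 h1
  obtain ⟨d, ρ, hρ, hρε⟩ := specIRR G ε hε0
  have hd := specIDM G (Fin d → ℂ) ρ hρ I ε hεε hIc hIo hρε
  rw [Module.finrank_fin_fun] at hd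
  set E := ρ.asAlgebraHom ε with hE
  have hEE : ∀ v, E (E v) = E v := by
    intro v
    rw [← Module.End.mul_apply, hE, ← map_mul, hεε]
  have hs : ∀ g : G, ρ.asAlgebraHom (u g) = ρ g := fun g =>
    Representation.asAlgebraHom_single_one ρ g
  have hNI : ∀ a : N, (a : G) ∈ I := by
    intro a b
    have e : cj (a : G) b = a * b * a⁻¹ := Subtype.ext (by rw [hcj]; rfl)
    rw [e, ψ.char_conj]
  have hst : ∀ f : N, ∀ v ∈ LinearMap.range E, ρ (f : G) v ∈ LinearMap.range E := by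
    rintro f v ⟨w, rfl⟩
    refine ⟨ρ (f : G) w, ?_⟩
    have h2 := congrArg (fun a => ρ.asAlgebraHom a w) (hIc (f : G) (hNI f))
    simp only [map_mul, hs, Module.End.mul_apply] at h2
    exact h2.symm
  have hmY : m ∣ Module.finrank ℂ (LinearMap.range E) := by
    let τ : Representation ℂ N (LinearMap.range E) :=
      { toFun := fun f => (ρ (f : G)).restrict (hst f)
        map_one' := by
          ext v
          simp
        map_mul' := by
          intro x y
          ext v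
          simp }
    have h := dvd_of_id ψ τ ?_
    · rwa [Module.finrank_fin_fun] at h
    · rw [Module.finrank_fin_fun]
      ext ⟨v, w, rfl⟩ i
      simp only [LinearMap.smul_apply, LinearMap.sum_apply, LinearMap.id_apply,
        Submodule.coe_smul, Submodule.coe_sum]
      have h1 : ρ.asAlgebraHom ε (E w) = E w := hEE w
      have h2 : ρ.asAlgebraHom ε = ((m : ℂ) * (Nat.card N : ℂ)⁻¹) •
          ∑ a : N, ψ.character a⁻¹ • ρ (a : G) := by
        rw [hεdef, map_smul, hX, XX, map_sum]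
        simp only [map_smul]
        congr 1
        refine Finset.sum_congr rfl fun a _ => ?_
        rw [← hs]
      rw [h2] at h1
      simp only [LinearMap.smul_apply, LinearMap.sum_apply] at h1
      have h3 : (m : ℂ) • (∑ a : N, ψ.character a⁻¹ • (ρ (a : G)) (E w)) =
          (Nat.card N : ℂ) • E w := by
        have h4 := congrArg (fun v => (Nat.card N : ℂ) • v) h1
        simp only [smul_smul] at h4
        rw [← h4]
        congr 1
        field_simp
      exact congrFun h3 i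
  refine ⟨d, ⟨ρ, hρ⟩, ?_⟩
  have h1 : Nat.card G = Nat.card I * I.index := (Subgroup.card_mul_index I).symm
  have h2 : d = I.index * Module.finrank ℂ (LinearMap.range E) := by
    rw [h1] at hd
    have hIpos : 0 < Nat.card I := Nat.card_pos
    apply Nat.eq_of_mul_eq_mul_left hIpos
    rw [mul_comm, hd]
    ring
  rw [h2]
  exact Dvd.dvd.mul_left hmY _

end normal

end Pool.Agent.Lib.MPbe1941.XF.ST
end

section
/-!
# MP_be1941_al, exact bound: states, minimal counterexamples, the state inequality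

`St G J Q`: every degree of `J` divides a degree of `G` which is divisible by all elements of `Q`.
`MC G Θ`: `(G, Θ)` is a minimal counterexample to Theorem H.
-/
set_option autoImplicit false

namespace Pool.Agent.Lib.MPbe1941.XF.ST

open Pool.Agent.Lib.MPbe1941 Pool.Agent.Lib.MPbe1941.RP Representation

/-! ### isomorphic groups -/

theorem isDeg_equiv {G J : Type} [Group G] [Group J] (e : G ≃* J) {d : ℕ} (h : IsDeg J d) :
    IsDeg G d := by
  obtain ⟨ρ, hρ⟩ := h
  refine ⟨(show Representation ℂ G (Fin d → ℂ) from MonoidHom.comp ρ e.toMonoidHom), ?_⟩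
  let f : Subrepresentation ρ ≃o Subrepresentation
      (show Representation ℂ G (Fin d → ℂ) from MonoidHom.comp ρ e.toMonoidHom) :=
    { toFun := fun S => ⟨S.toSubmodule, fun g _ hv => S.apply_mem_toSubmodule (e g) hv⟩
      invFun := fun S => ⟨S.toSubmodule, fun g v hv => by
        have := S.apply_mem_toSubmodule (e.symm g) hv
        change ρ (e (e.symm g)) v ∈ _ at this
        rwa [e.apply_symm_apply] at this⟩
      left_inv := fun _ => rfl
      right_inv := fun _ => rfl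
      map_rel_iff' := Iff.rfl }
  exact (OrderIso.isSimpleOrder_iff f).1 hρ

/-! ### states -/

/-- Every degree of `J` divides a degree of `G` which is divisible by all elements of `Q`. -/
def St (G J : Type) [Group G] [Group J] (Q : Set ℕ) : Prop :=
  ∀ m, IsDeg J m → ∃ e, IsDeg G e ∧ (∀ r ∈ Q, r ∣ e) ∧ m ∣ e

namespace St

variable {G J L : Type} [Group G] [Group J] [Group L]

theorem refl : St G G ∅ := fun m hm => ⟨m, hm, fun _ h => h.elim, dvd_rfl⟩

theorem trans {Q Q' : Set ℕ} (h : St G J Q) (h' : St J L Q') : St G L (Q ∪ Q') := by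
  intro m hm
  obtain ⟨e, he, hQ, hme⟩ := h' m hm
  obtain ⟨e', he', hQ', hee⟩ := h e he
  refine ⟨e', he', ?_, hme.trans hee⟩
  rintro r (hr | hr)
  · exact hQ' r hr
  · exact (hQ r hr).trans hee

theorem mono {Q Q' : Set ℕ} (h : St G J Q) (hQ : Q' ⊆ Q) : St G J Q' := by
  intro m hm
  obtain ⟨e, he, hQ1, hme⟩ := h m hm
  exact ⟨e, he, fun r hr => hQ1 r (hQ hr), hme⟩

theorem quot (N : Subgroup G) [N.Normal] : St G (G ⧸ N) ∅ := fun m hm =>
  ⟨m, RD.isDeg_infl N hm, fun _ h => h.elim, dvd_rfl⟩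

theorem equiv (e : G ≃* J) : St G J ∅ := fun m hm =>
  ⟨m, isDeg_equiv e hm, fun _ h => h.elim, dvd_rfl⟩

theorem normal [Finite G] {N : Subgroup G} (hN : N.Normal) : St G N ∅ := fun m hm => by
  obtain ⟨d, hd, hmd⟩ := normal_deg hN hm
  exact ⟨d, hd, fun _ h => h.elim, hmd⟩

end St

/-! ### states from stabilisers, ambient form -/

/-- A fully ramified pair `(K, κ)` in `F`, `F` normal in the subgroup `L` (ambient form). -/
structure APair {G : Type} [Group G] (L F K : Subgroup G) (κ : G → ℂ) : Prop where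
  FL : F ≤ L
  Fn : ∀ l ∈ L, ∀ x ∈ F, l * x * l⁻¹ ∈ F
  le : K ≤ F
  comm : ∀ x ∈ F, ∀ y ∈ F, x * y * x⁻¹ * y⁻¹ ∈ K
  one : κ 1 = 1
  mul : ∀ x ∈ K, ∀ y ∈ K, κ (x * y) = κ x * κ y
  inv : ∀ f ∈ F, FixK K κ f
  nd : ∀ x ∈ F, x ∉ K → ∃ y ∈ F, κ (x * y * x⁻¹ * y⁻¹) ≠ 1

theorem APair.isPair {G : Type} [Group G] {L F K : Subgroup G} {κ : G → ℂ} (h : APair L F K κ) :
    IsPair (F.subgroupOf L) (K.subgroupOf L) (fun x : L => κ x) where
  Fn := ⟨fun x hx l => by
    rw [Subgroup.mem_subgroupOf] at hx ⊢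
    exact h.Fn l l.2 x hx⟩
  le := fun x hx => by
    rw [Subgroup.mem_subgroupOf] at hx ⊢
    exact h.le hx
  comm := fun x hx y hy => by
    rw [Subgroup.mem_subgroupOf] at hx hy ⊢
    exact h.comm x hx y hy
  one := h.one
  mul := fun x hx y hy => by
    rw [Subgroup.mem_subgroupOf] at hx hy
    exact h.mul x hx y hy
  inv := fun f hf x hx => by
    rw [Subgroup.mem_subgroupOf] at hf hx
    have := h.inv f hf x hx
    refine ⟨?_, this.2⟩
    rw [Subgroup.mem_subgroupOf]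
    exact this.1
  nd := fun x hx hxK => by
    rw [Subgroup.mem_subgroupOf] at hx hxK
    obtain ⟨y, hy, hy2⟩ := h.nd x hx hxK
    exact ⟨⟨y, h.FL hy⟩, by rw [Subgroup.mem_subgroupOf]; exact hy, hy2⟩

/-- **The general state**: stabiliser of a fully ramified pair. -/
theorem pair_state {G : Type} [Group G] [Finite G] {L F K H J : Subgroup G} {κ : G → ℂ}
    (hp : APair L F K κ) (hsup : F ⊔ H = L) (hinf : F ⊓ H = ⊥)
    (hcop : (K.relIndex F).Coprime (Nat.card H)) (hJH : J ≤ H)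
    (hJ : ∀ h ∈ H, h ∈ J ↔ FixK K κ h) :
    St L J {r | r.Prime ∧ (r ∣ K.relIndex F ∨ r ∣ J.relIndex H)} := by
  have hHL : H ≤ L := by rw [← hsup]; exact le_sup_right
  have hJL : J ≤ L := hJH.trans hHL
  intro m hm
  have hm' : IsDeg (J.subgroupOf L) m :=
    isDeg_equiv (Subgroup.subgroupOfEquivOfLe hJL) hm
  have e1 : (K.subgroupOf L).relIndex (F.subgroupOf L) = K.relIndex F :=
    Subgroup.relIndex_subgroupOf hp.FL
  have e2 : (J.subgroupOf L).relIndex (H.subgroupOf L) = J.relIndex H :=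
    Subgroup.relIndex_subgroupOf hHL
  have a1 : F.subgroupOf L ⊔ H.subgroupOf L = ⊤ := by
    have e3 := Subgroup.subgroupOf_sup hp.FL hHL
    rw [hsup, Subgroup.subgroupOf_self] at e3
    exact e3.symm
  have a2 : F.subgroupOf L ⊓ H.subgroupOf L = ⊥ := by
    rw [eq_bot_iff]
    rintro x ⟨hx1, hx2⟩
    have hx1' : (x : G) ∈ F := Subgroup.mem_subgroupOf.1 hx1
    have hx2' : (x : G) ∈ H := Subgroup.mem_subgroupOf.1 hx2
    have : (x : G) ∈ F ⊓ H := ⟨hx1', hx2'⟩
    rw [hinf, Subgroup.mem_bot] at this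
    rw [Subgroup.mem_bot]
    exact Subtype.ext this
  have a3 : ((K.subgroupOf L).relIndex (F.subgroupOf L)).Coprime
      (Nat.card (H.subgroupOf L)) := by
    rw [e1]
    have : Nat.card (H.subgroupOf L) = Nat.card H :=
      Nat.card_congr (Subgroup.subgroupOfEquivOfLe hHL).toEquiv
    rw [this]
    exact hcop
  have a4 : J.subgroupOf L ≤ H.subgroupOf L := by
    intro x hx
    rw [Subgroup.mem_subgroupOf] at hx ⊢
    exact hJH hx
  have a5 : ∀ h ∈ H.subgroupOf L,
      h ∈ J.subgroupOf L ↔ FixK (K.subgroupOf L) (fun x : L => κ x) h := by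
    intro h hh
    rw [Subgroup.mem_subgroupOf] at hh
    rw [Subgroup.mem_subgroupOf, hJ h hh]
    constructor
    · intro h1 x hx
      rw [Subgroup.mem_subgroupOf] at hx
      refine ⟨?_, (h1 x hx).2⟩
      rw [Subgroup.mem_subgroupOf]
      exact (h1 x hx).1
    · intro h1 x hx
      have hxL : x ∈ L := hp.FL (hp.le hx)
      have := h1 ⟨x, hxL⟩ (by rw [Subgroup.mem_subgroupOf]; exact hx)
      refine ⟨?_, this.2⟩
      have h2 := this.1
      rw [Subgroup.mem_subgroupOf] at h2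
      exact h2
  obtain ⟨d, hd, hd1, hd2⟩ := stab_state hp.isPair a1 a2 a3 a4 a5 hm'
  refine ⟨d, hd, ?_, (Dvd.intro_left _ rfl).trans hd2⟩
  rintro r ⟨hr, h | h⟩
  · exact hd1 r hr (by rw [e1]; exact h)
  · rw [e2] at hd2
    exact (h.trans (Dvd.intro _ rfl)).trans hd2

/-- The state of a linear character `β` of a complemented normal subgroup `D` of `L`. -/
theorem lin_state {G : Type} [Group G] [Finite G] {L D H J : Subgroup G} {β : G → ℂ}
    (hDn : ∀ l ∈ L, ∀ x ∈ D, l * x * l⁻¹ ∈ D) (h1 : β 1 = 1)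
    (hm : ∀ x ∈ D, ∀ y ∈ D, β (x * y) = β x * β y) (hsup : D ⊔ H = L) (hinf : D ⊓ H = ⊥)
    (hJH : J ≤ H) (hJ : ∀ h ∈ H, h ∈ J ↔ ∀ x ∈ D, β (h * x * h⁻¹) = β x) :
    St L J {r | r.Prime ∧ r ∣ J.relIndex H} := by
  have hDL : D ≤ L := by rw [← hsup]; exact le_sup_left
  have hHL : H ≤ L := by rw [← hsup]; exact le_sup_right
  have hp : APair L D D β :=
    { FL := hDL
      Fn := hDn
      le := le_rfl
      comm := fun x hx y hy => D.mul_mem (D.mul_mem (D.mul_mem hx hy) (D.inv_mem hx)) (D.inv_mem hy)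
      one := h1
      mul := hm
      inv := fun f hf x hx => by
        have h2 : β f * β f⁻¹ = 1 := by rw [← hm f hf _ (D.inv_mem hf), mul_inv_cancel, h1]
        refine ⟨D.mul_mem (D.mul_mem hf hx) (D.inv_mem hf), ?_⟩
        rw [hm _ (D.mul_mem hf hx) _ (D.inv_mem hf), hm f hf x hx]
        calc β f * β x * β f⁻¹ = (β f * β f⁻¹) * β x := by ring
          _ = β x := by rw [h2, one_mul]
      nd := fun x hx hx2 => absurd hx hx2 }
  have := pair_state hp hsup hinf (by rw [Subgroup.relIndex_self]; exact Nat.coprime_one_left _)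
    hJH (fun h hh => by
      rw [hJ h hh]
      constructor
      · intro h2 x hx
        exact ⟨hDn h (hHL hh) x hx, h2 x hx⟩
      · intro h2 x hx
        exact (h2 x hx).2)
  exact this.mono (fun r hr => ⟨hr.1, Or.inr hr.2⟩)

/-! ### minimal counterexamples -/

/-- Theorem H for the group `G` and the set `Θ`. -/
def TH (G : Type) [Group G] (Θ : Finset ℕ) : Prop :=
  ∃ d, IsDeg G d ∧ {r | r ∈ Θ ∧ ¬ NAS G r}.ncard ≤ 2 * {r | r ∈ Θ ∧ r ∣ d}.ncard

/-- `(G, Θ)` is a minimal counterexample to Theorem H. -/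
structure MC (G : Type) [Group G] (Θ : Finset ℕ) : Prop where
  fin : Finite G
  sol : Group.IsSolvable G
  prime : ∀ r ∈ Θ, r.Prime
  nnas : ∀ r ∈ Θ, ¬ NAS G r
  max : ∀ d, IsDeg G d → 2 * {r | r ∈ Θ ∧ r ∣ d}.ncard + 1 ≤ Θ.card
  ih : ∀ (J : Type) [Group J] [Finite J], Group.IsSolvable J → Nat.card J < Nat.card G →
    ∀ Θ' : Finset ℕ, (∀ r ∈ Θ', r.Prime) → TH J Θ'

theorem exists_MC (h : ∃ (G : Type) (_ : Group G) (_ : Finite G), Group.IsSolvable G ∧
    ∃ Θ : Finset ℕ, (∀ r ∈ Θ, r.Prime) ∧ ¬ TH G Θ) :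
    ∃ (G : Type) (_ : Group G) (Θ : Finset ℕ), MC G Θ := by
  classical
  by_contra hcon
  have key : ∀ (n : ℕ) (G : Type) [Group G] [Finite G], Nat.card G = n → Group.IsSolvable G →
      ∀ Θ : Finset ℕ, (∀ r ∈ Θ, r.Prime) → TH G Θ := by
    intro n
    induction n using Nat.strong_induction_on with
    | _ n ih =>
      intro G _ _ hn hs Θ hΘ
      by_contra hTH
      apply hcon
      refine ⟨G, inferInstance, Θ.filter (fun r => ¬ NAS G r), ?_⟩
      refine ⟨inferInstance, hs, fun r hr => hΘ r (Finset.mem_filter.1 hr).1,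
        fun r hr => (Finset.mem_filter.1 hr).2, ?_, ?_⟩
      · intro d hd
        by_contra hlt
        apply hTH
        refine ⟨d, hd, ?_⟩
        have e1 : {r | r ∈ Θ ∧ ¬ NAS G r} = ((Θ.filter (fun r => ¬ NAS G r) : Finset ℕ) : Set ℕ) := by
          ext r; simp
        rw [e1, Set.ncard_coe_finset]
        have h2 : {r | r ∈ Θ.filter (fun r => ¬ NAS G r) ∧ r ∣ d}.ncard ≤
            {r | r ∈ Θ ∧ r ∣ d}.ncard := by
          apply Set.ncard_le_ncard
          · rintro r ⟨hr, hr2⟩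
            exact ⟨(Finset.mem_filter.1 hr).1, hr2⟩
          · exact Θ.finite_toSet.subset (fun r hr => hr.1)
        omega
      · intro J _ _ hJs hJ Θ' hΘ'
        exact ih (Nat.card J) (hn ▸ hJ) J rfl hJs Θ' hΘ'
  obtain ⟨G, _, _, hs, Θ, hΘ, hTH⟩ := h
  exact hTH (key _ G rfl hs Θ hΘ)

/-- **State inequality** (0.4). -/
theorem MC.ineq {G : Type} [Group G] {Θ : Finset ℕ} (h : MC G Θ) {J : Type} [Group J] [Finite J]
    (hs : Group.IsSolvable J) (hlt : Nat.card J < Nat.card G) {Q : Set ℕ} (hSt : St G J Q) :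
    {r | r ∈ Θ ∧ r ∈ Q}.ncard + 1 ≤ {r | r ∈ Θ ∧ r ∉ Q ∧ NAS J r}.ncard := by
  classical
  set A := Θ.filter (fun r => r ∈ Q) with hA
  set M := Θ.filter (fun r => r ∉ Q ∧ NAS J r) with hM
  have eA : {r | r ∈ Θ ∧ r ∈ Q} = (A : Set ℕ) := by ext r; simp [hA]
  have eM : {r | r ∈ Θ ∧ r ∉ Q ∧ NAS J r} = (M : Set ℕ) := by ext r; simp [hM]
  rw [eA, eM, Set.ncard_coe_finset, Set.ncard_coe_finset]
  set B := Θ.filter (fun r => r ∉ Q) with hBdef
  obtain ⟨m, hm, hm2⟩ := h.ih J hs hlt B (fun r hr => h.prime r (Finset.mem_filter.1 hr).1)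
  obtain ⟨e, he, hQ, hme⟩ := hSt m hm
  have h1 := h.max e he
  have e2 : {r | r ∈ B ∧ ¬ NAS J r} = ((B \ M : Finset ℕ) : Set ℕ) := by
    ext r
    simp only [Set.mem_ofPred_eq, Finset.coe_sdiff, Set.mem_sdiff, Finset.mem_coe, hBdef, hM,
      Finset.mem_filter]
    tauto
  rw [e2, Set.ncard_coe_finset] at hm2
  have e3 : {r | r ∈ B ∧ r ∣ m} = ((B.filter (fun r => r ∣ m) : Finset ℕ) : Set ℕ) := by
    ext r; simp
  rw [e3, Set.ncard_coe_finset] at hm2
  have e4 : A.card + (B.filter (fun r => r ∣ m)).card ≤ {r | r ∈ Θ ∧ r ∣ e}.ncard := by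
    have e5 : {r | r ∈ Θ ∧ r ∣ e} = ((Θ.filter (fun r => r ∣ e) : Finset ℕ) : Set ℕ) := by
      ext r; simp
    rw [e5, Set.ncard_coe_finset, ← Finset.card_union_of_disjoint]
    · apply Finset.card_le_card
      intro r hr
      rw [Finset.mem_union, hA, hBdef, Finset.mem_filter, Finset.mem_filter,
        Finset.mem_filter] at hr
      rw [Finset.mem_filter]
      rcases hr with ⟨hr, hr2⟩ | ⟨⟨hr, -⟩, hr2⟩
      · exact ⟨hr, hQ r hr2⟩
      · exact ⟨hr, hr2.trans hme⟩
    · rw [Finset.disjoint_left]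
      intro r hr hr2
      rw [hA, Finset.mem_filter] at hr
      rw [hBdef, Finset.mem_filter, Finset.mem_filter] at hr2
      exact hr2.1.2 hr.2
  have e6 : A.card + B.card = Θ.card := by
    rw [hA, hBdef]
    exact Finset.card_filter_add_card_filter_not _
  have e7 : (B \ M).card = B.card - M.card := by
    apply Finset.card_sdiff_of_subset
    intro r hr
    rw [hM, Finset.mem_filter] at hr
    rw [hBdef, Finset.mem_filter]
    exact ⟨hr.1, hr.2.1⟩
  have e8 : M.card ≤ B.card := by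
    apply Finset.card_le_card
    intro r hr
    rw [hM, Finset.mem_filter] at hr
    rw [hBdef, Finset.mem_filter]
    exact ⟨hr.1, hr.2.1⟩
  omega

/-- A normal subgroup of index not divisible by `r` with a normal abelian Sylow `r`-subgroup. -/
theorem nas_of_normal {G : Type} [Group G] [Finite G] {N : Subgroup G} (hN : N.Normal) {r : ℕ}
    (hr : r.Prime) (hi : ¬ r ∣ N.index) (h : NAS N r) : NAS G r := by
  obtain ⟨P, hPn, hPc, hPp, hPi⟩ := h
  have hPN : P.map N.subtype ≤ N := by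
    intro x hx
    obtain ⟨y, -, rfl⟩ := Subgroup.mem_map.1 hx
    exact y.2
  refine ⟨P.map N.subtype, ⟨?_⟩, ?_, hPp.map _, ?_⟩
  · intro x hx g
    -- the conjugate subgroup is an `r`-subgroup of `N`, so it is contained in `P`
    obtain ⟨y, hy, rfl⟩ := Subgroup.mem_map.1 hx
    have h1 : IsPGroup r (P.map (MulAut.conjNormal (H := N) g).toMonoidHom) := hPp.map _
    have h2 := RD.le_of_sylow hr hPn hPi h1
    have h3 : MulAut.conjNormal (H := N) g y ∈ P := h2 (Subgroup.mem_map_of_mem _ hy)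
    refine Subgroup.mem_map.2 ⟨_, h3, ?_⟩
    exact MulAut.conjNormal_apply g y
  · rintro _ ⟨x, hx, rfl⟩ _ ⟨y, hy, rfl⟩
    rw [← map_mul, ← map_mul, hPc x hx y hy]
  · have h1 : (P.map N.subtype).index = P.index * N.index := by
      rw [← Subgroup.relIndex_mul_index hPN]
      congr 1
      rw [Subgroup.relIndex]
      congr 1
      exact Subgroup.comap_map_eq_self_of_injective N.subtype_injective P
    rw [h1]
    intro h2
    rcases hr.dvd_mul.1 h2 with h3 | h3
    · exact hPi h3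
    · exact hi h3

/-- **(P')** (0.6). A normal subgroup `N` of prime index `s`: `s ∈ Θ` and `N` has a normal abelian
Sylow `s`-subgroup. -/
theorem MC.prime_index {G : Type} [Group G] {Θ : Finset ℕ} (h : MC G Θ) {N : Subgroup G}
    (hN : N.Normal) (hs : N.index.Prime) : N.index ∈ Θ ∧ NAS N N.index := by
  have := h.fin
  have hsol : Group.IsSolvable G := h.sol
  have hlt : Nat.card N < Nat.card G := by
    rw [← Subgroup.card_mul_index N]
    have h1 : 0 < Nat.card N := Nat.card_pos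
    have h2 := hs.two_le
    nlinarith
  have h1 := h.ineq (J := N) inferInstance hlt (St.normal hN)
  have h2 : 0 < {r | r ∈ Θ ∧ r ∉ (∅ : Set ℕ) ∧ NAS N r}.ncard := by omega
  rw [Set.ncard_pos (Θ.finite_toSet.subset (fun r hr => hr.1))] at h2
  obtain ⟨r, hr1, -, hr2⟩ := h2
  have hrs : r = N.index := by
    by_contra hne
    apply h.nnas r hr1
    refine nas_of_normal hN (h.prime r hr1) ?_ hr2
    intro h3
    exact hne ((Nat.prime_dvd_prime_iff_eq (h.prime r hr1) hs).1 h3)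
  rw [← hrs]
  exact ⟨hr1, hr2⟩

end Pool.Agent.Lib.MPbe1941.XF.ST
end

section
/-!
# MP_be1941_al, exact bound: the states `E K`, `K ≤ H`

`j : H →* G` is injective, `j(H)` normalises `E`, `E ∩ j(H) = 1` (`Emb j E`). The groups of the
states are `JJ j E K = E j(K)`, `K ≤ H`. `Pre G₀ j E Q₀ S D K`: `S ≤ H` is the stabiliser of the
characters chosen so far, `D` (normal in `S`, centralising `E`) carries the characters on `H`, `K`
is a complement of `D` in `S`, and `E K` is a state of `G₀` which kills the primes of `Q₀` and those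
dividing `|H : S|`.

`Pre.step`: one more linear character `β` of a complemented normal subgroup `D₁` of `K`.
`Pre.miss`: what it means that `r` is missed.
`Pre.lin`, `Pre.pair`: the initial states.
-/
set_option autoImplicit false

namespace Pool.Agent.Lib.MPbe1941.XF.ST

open Pool.Agent.Lib.MPbe1941 Pool.Agent.Lib.MPbe1941.RP Pool.Agent.Lib.MPbe1941.XF

/-- Decomposition of an element of finite order. -/
theorem exists_decomp {G : Type} [Group G] [Finite G] {r : ℕ} (hr : r.Prime) (E : Subgroup G)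
    {e : G} (he : e ∈ E) : ∃ y ∈ E, ∃ z ∈ E, y * z = e ∧ (∃ n : ℕ, y ^ r ^ n = 1) ∧
      ∃ m : ℕ, ¬ r ∣ m ∧ z ^ m = 1 := by
  have hpos : orderOf e ≠ 0 := (orderOf_pos e).ne'
  obtain ⟨a, m, hm, hd⟩ := Nat.exists_eq_pow_mul_and_not_dvd hpos r hr.ne_one
  have hcop : IsCoprime ((r ^ a : ℕ) : ℤ) (m : ℤ) := by
    rw [Nat.isCoprime_iff_coprime]
    exact Nat.Coprime.pow_left _ ((Nat.Prime.coprime_iff_not_dvd hr).2 hm)
  obtain ⟨u, v, huv⟩ := hcop
  have h1 : e ^ (((r ^ a : ℕ) : ℤ) * (m : ℤ)) = 1 := by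
    rw [← Nat.cast_mul, ← hd, zpow_natCast, pow_orderOf_eq_one]
  refine ⟨e ^ (v * m), E.zpow_mem he _, e ^ (u * ((r ^ a : ℕ) : ℤ)), E.zpow_mem he _, ?_,
    ⟨a, ?_⟩, m, hm, ?_⟩
  · rw [← zpow_add, add_comm, huv, zpow_one]
  · rw [← zpow_natCast, ← zpow_mul]
    have : v * (m : ℤ) * ((r ^ a : ℕ) : ℤ) = ((r ^ a : ℕ) : ℤ) * (m : ℤ) * v := by ring
    rw [this, zpow_mul, h1, one_zpow]
  · rw [← zpow_natCast, ← zpow_mul]
    have : u * ((r ^ a : ℕ) : ℤ) * (m : ℤ) = ((r ^ a : ℕ) : ℤ) * (m : ℤ) * u := by ring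
    rw [this, zpow_mul, h1, one_zpow]

section

variable {G0 G H : Type} [Group G0] [Group G] [Group H]

/-- `j` is an embedding, `j(H)` normalises `E` and meets it trivially. -/
structure Emb (j : H →* G) (E : Subgroup G) : Prop where
  inj : Function.Injective j
  nor : ∀ h : H, ∀ e ∈ E, j h * e * (j h)⁻¹ ∈ E
  dis : ∀ h : H, j h ∈ E → h = 1

/-- The group `E j(K)`. -/
def JJ (j : H →* G) (E : Subgroup G) (K : Subgroup H) : Subgroup G := E ⊔ K.map j

theorem Emb.nrm {j : H →* G} {E : Subgroup G} (hE : Emb j E) (K : Subgroup H) :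
    Nrm (K.map j) E := by
  rintro _ ⟨k, -, rfl⟩ e he
  exact hE.nor k e he

theorem mem_JJ {j : H →* G} {E : Subgroup G} (hE : Emb j E) {K : Subgroup H} {g : G} :
    g ∈ JJ j E K ↔ ∃ e ∈ E, ∃ k ∈ K, e * j k = g := by
  unfold JJ
  rw [XF.mem_sup (hE.nrm K)]
  constructor
  · rintro ⟨e, he, _, ⟨k, hk, rfl⟩, rfl⟩
    exact ⟨e, he, k, hk, rfl⟩
  · rintro ⟨e, he, k, hk, rfl⟩
    exact ⟨e, he, _, ⟨k, hk, rfl⟩, rfl⟩

theorem inf_JJ {j : H →* G} {E : Subgroup G} (hE : Emb j E) (K : Subgroup H) :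
    E ⊓ K.map j = ⊥ := by
  rw [eq_bot_iff]
  rintro x ⟨hx, ⟨k, -, rfl⟩⟩
  rw [Subgroup.mem_bot, hE.dis k hx, map_one]

theorem j_mem_JJ {j : H →* G} {E : Subgroup G} (hE : Emb j E) {K : Subgroup H} {k : H} :
    j k ∈ JJ j E K ↔ k ∈ K := by
  rw [mem_JJ hE]
  constructor
  · rintro ⟨e, he, k', hk', h⟩
    have h1 : j (k * k'⁻¹) ∈ E := by
      rw [map_mul, ← h, map_inv, mul_inv_cancel_right]
      exact he
    have h2 := hE.dis _ h1
    rw [mul_inv_eq_one.1 h2]
    exact hk'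
  · intro hk
    exact ⟨1, E.one_mem, k, hk, one_mul _⟩

theorem card_JJ [Finite G] {j : H →* G} {E : Subgroup G} (hE : Emb j E) (K : Subgroup H) :
    Nat.card (JJ j E K) = Nat.card E * Nat.card K := by
  unfold JJ
  rw [XF.card_sup (hE.nrm K) (inf_JJ hE K)]
  congr 1
  exact (Nat.card_congr (Subgroup.equivMapOfInjective K j hE.inj).toEquiv).symm

theorem JJ_mono {j : H →* G} {E : Subgroup G} {K K' : Subgroup H} (h : K' ≤ K) :
    JJ j E K' ≤ JJ j E K := sup_le_sup_left (Subgroup.map_mono h) E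

theorem relIndex_JJ [Finite G] {j : H →* G} {E : Subgroup G} (hE : Emb j E) {K K' : Subgroup H}
    (h : K' ≤ K) : (JJ j E K').relIndex (JJ j E K) = K'.relIndex K := by
  have : Finite H := Finite.of_injective j hE.inj
  have h1 := RD.card_rel (JJ_mono (j := j) (E := E) h)
  have h2 := RD.card_rel h
  rw [card_JJ hE, card_JJ hE, ← h2, ← mul_assoc] at h1
  have h3 : 0 < Nat.card E * Nat.card K' := Nat.mul_pos Nat.card_pos Nat.card_pos
  exact Nat.eq_of_mul_eq_mul_left h3 h1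

/-- A prestate. -/
structure Pre (G0 : Type) [Group G0] (j : H →* G) (E : Subgroup G) (Q0 : Set ℕ)
    (S D K : Subgroup H) : Prop where
  emb : Emb j E
  DS : D ≤ S
  KS : K ≤ S
  Dn : ∀ s ∈ S, ∀ x ∈ D, s * x * s⁻¹ ∈ D
  DE : ∀ x ∈ D, ∀ e ∈ E, j x * e = e * j x
  inf : D ⊓ K = ⊥
  sup : D ⊔ K = S
  st : St G0 (JJ j E K) {r | r.Prime ∧ (r ∈ Q0 ∨ r ∣ S.index)}

theorem nrm_sup_right {S A B : Subgroup G} (h1 : Nrm S A) (h2 : Nrm S B) : Nrm S (A ⊔ B) := by
  intro s hs k hk
  refine sup_ind (p := fun x => s * x * s⁻¹ ∈ A ⊔ B)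
    (fun x hx => Subgroup.mem_sup_left (h1 s hs x hx))
    (fun x hx => Subgroup.mem_sup_right (h2 s hs x hx)) (fun x y hx hy => ?_) hk
  have e : s * (x * y) * s⁻¹ = (s * x * s⁻¹) * (s * y * s⁻¹) := by group
  rw [e]
  exact Subgroup.mul_mem _ hx hy

/-- Composition with a state. -/
theorem Pre.of_st {G1 : Type} [Group G1] {j : H →* G} {E : Subgroup G} {Q0 Q1 : Set ℕ}
    {S D K : Subgroup H} (h0 : St G1 G0 Q1) (h : Pre G0 j E Q0 S D K) :
    Pre G1 j E (Q0 ∪ Q1) S D K where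
  emb := h.emb
  DS := h.DS
  KS := h.KS
  Dn := h.Dn
  DE := h.DE
  inf := h.inf
  sup := h.sup
  st := (h0.trans h.st).mono (by
    rintro r ⟨hr, (h1 | h1) | h1⟩
    · exact Or.inr ⟨hr, Or.inl h1⟩
    · exact Or.inl h1
    · exact Or.inr ⟨hr, Or.inr h1⟩)

/-- **One more step**: a linear character `β` of a complemented normal subgroup `D₁` of `K`. -/
theorem Pre.step [Finite G] {j : H →* G} {E : Subgroup G} {Q0 : Set ℕ} {S D K : Subgroup H}
    (h : Pre G0 j E Q0 S D K) {D1 K1 K' : Subgroup H} {β : H → ℂ}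
    (hD1 : ∀ k ∈ K, ∀ x ∈ D1, k * x * k⁻¹ ∈ D1) (hDE : ∀ x ∈ D1, ∀ e ∈ E, j x * e = e * j x)
    (hinf : D1 ⊓ K1 = ⊥) (hsup : D1 ⊔ K1 = K) (h1 : β 1 = 1)
    (hm : ∀ x ∈ D1, ∀ y ∈ D1, β (x * y) = β x * β y) (hK' : K' ≤ K1)
    (hK'2 : ∀ k ∈ K1, k ∈ K' ↔ ∀ x ∈ D1, β (k * x * k⁻¹) = β x) :
    Pre G0 j E Q0 (D ⊔ D1 ⊔ K') (D ⊔ D1) K' := by
  classical
  have hE := h.emb
  have hfH : Finite H := Finite.of_injective j hE.inj
  have hD1K : D1 ≤ K := by rw [← hsup]; exact le_sup_left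
  have hK1K : K1 ≤ K := by rw [← hsup]; exact le_sup_right
  have hKS := h.KS
  have n1 : Nrm K D := fun k hk x hx => h.Dn k (hKS hk) x hx
  have n2 : Nrm D1 D := n1.mono hD1K
  have n3 : Nrm K' D := n1.mono (hK'.trans hK1K)
  have n4 : Nrm K' D1 := fun k hk x hx => hD1 k (hK1K (hK' hk)) x hx
  have n5 : Nrm K1 D1 := fun k hk x hx => hD1 k (hK1K hk) x hx
  have n6 : Nrm K' (D ⊔ D1) := nrm_sup_right n3 n4
  have i1 : D ⊓ D1 = ⊥ := by
    rw [eq_bot_iff, ← h.inf]
    exact inf_le_inf_left D hD1K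
  have i2 : (D ⊔ D1) ⊓ K' = ⊥ := by
    rw [eq_bot_iff]
    rintro x ⟨hx, hx'⟩
    obtain ⟨d, hd, d1, hd1, rfl⟩ := (XF.mem_sup n2).1 hx
    have e1 : d ∈ D ⊓ K := by
      refine ⟨hd, ?_⟩
      have : d = d * d1 * d1⁻¹ := by group
      rw [this]
      exact K.mul_mem (hK1K (hK' hx')) (K.inv_mem (hD1K hd1))
    rw [h.inf, Subgroup.mem_bot] at e1
    rw [e1, one_mul] at hx' ⊢
    have e2 : d1 ∈ D1 ⊓ K1 := ⟨hd1, hK' hx'⟩
    rw [hinf] at e2
    exact e2
  have c1 : Nat.card S = Nat.card D * (Nat.card D1 * Nat.card K1) := by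
    rw [← h.sup, XF.card_sup n1 h.inf, ← hsup, XF.card_sup n5 hinf]
  have c2 : Nat.card (D ⊔ D1 ⊔ K' : Subgroup H) = Nat.card D * Nat.card D1 * Nat.card K' := by
    rw [XF.card_sup n6 i2, XF.card_sup n2 i1]
  have hS'S : D ⊔ D1 ⊔ K' ≤ S := sup_le (sup_le h.DS (hD1K.trans hKS)) ((hK'.trans hK1K).trans hKS)
  have ri : (D ⊔ D1 ⊔ K').relIndex S = K'.relIndex K1 := by
    have e1 := RD.card_rel hS'S
    have e2 := RD.card_rel hK'
    rw [c1, c2, ← e2] at e1
    have h3 : 0 < Nat.card D * Nat.card D1 * Nat.card K' :=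
      Nat.mul_pos (Nat.mul_pos Nat.card_pos Nat.card_pos) Nat.card_pos
    apply Nat.eq_of_mul_eq_mul_left h3
    rw [e1]
    ring
  refine ⟨hE, le_sup_left, le_sup_right, ?_, ?_, i2, rfl, ?_⟩
  · exact (nrm_self (D ⊔ D1)).sup n6
  · intro x hx e he
    obtain ⟨d, hd, d1, hd1, rfl⟩ := (XF.mem_sup n2).1 hx
    rw [map_mul, mul_assoc, hDE d1 hd1 e he, ← mul_assoc, h.DE d hd e he, mul_assoc]
  · -- the state
    let β' : G → ℂ := fun g => if hg : ∃ x, j x = g then β hg.choose else 1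
    have hβ' : ∀ x, β' (j x) = β x := by
      intro x
      have hg : ∃ y, j y = j x := ⟨x, rfl⟩
      have : β' (j x) = β hg.choose := dif_pos hg
      rw [this, hE.inj hg.choose_spec]
    have s1 : St (JJ j E K) (JJ j E K') {r | r.Prime ∧ r ∣ (JJ j E K').relIndex (JJ j E K1)} := by
      refine lin_state (D := D1.map j) (β := β') ?_ ?_ ?_ ?_ ?_ (JJ_mono hK') ?_
      · rintro l hl _ ⟨x, hx, rfl⟩
        obtain ⟨e, he, k, hk, rfl⟩ := (mem_JJ hE).1 hl
        refine ⟨k * x * k⁻¹, hD1 k hk x hx, ?_⟩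
        have e1 := hDE (k * x * k⁻¹) (hD1 k hk x hx) e he
        rw [map_mul, map_mul, map_inv] at e1 ⊢
        calc j k * j x * (j k)⁻¹ = (j k * j x * (j k)⁻¹ * e) * e⁻¹ := by group
          _ = e * (j k * j x * (j k)⁻¹) * e⁻¹ := by rw [e1]
          _ = e * j k * j x * (e * j k)⁻¹ := by group
      · rw [← map_one j, hβ', h1]
      · rintro _ ⟨x, hx, rfl⟩ _ ⟨y, hy, rfl⟩
        rw [← map_mul, hβ', hβ', hβ', hm x hx y hy]
      · unfold JJ
        rw [← hsup, Subgroup.map_sup, ← sup_assoc, ← sup_assoc, sup_comm E]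
      · rw [eq_bot_iff]
        rintro _ ⟨⟨x, hx, rfl⟩, hx2⟩
        have h3 : x ∈ K1 := (j_mem_JJ hE).1 hx2
        have h4 : x ∈ D1 ⊓ K1 := ⟨hx, h3⟩
        rw [hinf, Subgroup.mem_bot] at h4
        rw [h4, map_one]
        exact Subgroup.one_mem _
      · intro l hl
        obtain ⟨e, he, k, hk, rfl⟩ := (mem_JJ hE).1 hl
        have e2 : ∀ x ∈ D1, e * j k * j x * (e * j k)⁻¹ = j (k * x * k⁻¹) := by
          intro x hx
          have e1 := hDE (k * x * k⁻¹) (hD1 k (hK1K hk) x hx) e he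
          rw [map_mul, map_mul, map_inv] at e1 ⊢
          calc e * j k * j x * (e * j k)⁻¹ = e * (j k * j x * (j k)⁻¹) * e⁻¹ := by group
            _ = (j k * j x * (j k)⁻¹ * e) * e⁻¹ := by rw [e1]
            _ = j k * j x * (j k)⁻¹ := by group
        have e3 : e * j k ∈ JJ j E K' ↔ k ∈ K' := by
          rw [← j_mem_JJ hE (K := K') (k := k)]
          constructor
          · intro h5
            have h6 := (JJ j E K').mul_mem ((JJ j E K').inv_mem (Subgroup.mem_sup_left he)) h5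
            rwa [inv_mul_cancel_left] at h6
          · intro h5
            exact (JJ j E K').mul_mem (Subgroup.mem_sup_left he) h5
        rw [e3, hK'2 k hk]
        constructor
        · rintro h5 _ ⟨x, hx, rfl⟩
          rw [e2 x hx, hβ', hβ', h5 x hx]
        · intro h5 x hx
          have := h5 (j x) ⟨x, hx, rfl⟩
          rwa [e2 x hx, hβ', hβ'] at this
    refine (h.st.trans s1).mono ?_
    rintro r ⟨hr, h2⟩
    rw [relIndex_JJ hE hK']
    rcases h2 with h2 | h2
    · exact Or.inl ⟨hr, Or.inl h2⟩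
    · rw [← Subgroup.relIndex_mul_index hS'S, ri] at h2
      rcases hr.dvd_mul.1 h2 with h3 | h3
      · exact Or.inr ⟨hr, h3⟩
      · exact Or.inl ⟨hr, Or.inr h3⟩

/-- **Missed primes.** -/
theorem Pre.miss [Finite G] {j : H →* G} {E : Subgroup G} {Q0 : Set ℕ} {S D K : Subgroup H}
    (h : Pre G0 j E Q0 S D K) {r : ℕ} (hr : r.Prime) (hri : ¬ r ∣ S.index)
    (hEr : ∀ y ∈ E, (∃ n : ℕ, y ^ r ^ n = 1) → ∀ z ∈ E, (∃ m : ℕ, ¬ r ∣ m ∧ z ^ m = 1) →
      y * z = z * y) (hN : NAS (JJ j E K) r) :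
    ∃ T : Subgroup H, SylIn r ⊤ T ∧ T ≤ S ∧ (∀ t ∈ T, ∀ e ∈ E, j t * e = e * j t) ∧
      (∀ x ∈ T, ∀ y ∈ T, x * y * x⁻¹ * y⁻¹ ∈ D) ∧ ∀ s ∈ S, ∀ t ∈ T, s * t * s⁻¹ ∈ D ⊔ T := by
  have hE := h.emb
  have hfH : Finite H := Finite.of_injective j hE.inj
  set L := JJ j E K with hL
  obtain ⟨P, hPn, hPc, hPp, hPi⟩ := hN
  -- the group `P` in `G`
  set P' := P.map L.subtype with hP'
  have mP : ∀ x (hx : x ∈ L), x ∈ P' ↔ (⟨x, hx⟩ : L) ∈ P := by
    intro x hx
    rw [hP', Subgroup.mem_map]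
    constructor
    · rintro ⟨y, hy, rfl⟩
      exact hy
    · intro h1
      exact ⟨_, h1, rfl⟩
  have hP'L : P' ≤ L := Subgroup.map_subtype_le _
  have hP'n : ∀ l ∈ L, ∀ x ∈ P', l * x * l⁻¹ ∈ P' := by
    intro l hl x hx
    have hx' := hP'L hx
    rw [mP _ (L.mul_mem (L.mul_mem hl hx') (L.inv_mem hl))]
    exact hPn.conj_mem ⟨x, hx'⟩ ((mP x hx').1 hx) ⟨l, hl⟩
  have hP'c : ∀ x ∈ P', ∀ y ∈ P', x * y = y * x := by
    intro x hx y hy
    have := hPc _ ((mP x (hP'L hx)).1 hx) _ ((mP y (hP'L hy)).1 hy)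
    exact congrArg Subtype.val this
  have hP'p : IsPGroup r P' := hPp.map _
  -- `r`-elements of `L` are in `P'`
  have hin : ∀ x ∈ L, (∃ n : ℕ, x ^ r ^ n = 1) → x ∈ P' := by
    rintro x hx ⟨n, hn⟩
    have h1 : IsPGroup r (Subgroup.zpowers (⟨x, hx⟩ : L)) := by
      apply RD.pgroup_of
      rintro _ ⟨k, rfl⟩
      refine ⟨n, ?_⟩
      have h2 : (⟨x, hx⟩ : L) ^ r ^ n = 1 := Subtype.ext hn
      change ((⟨x, hx⟩ : L) ^ k) ^ r ^ n = 1
      rw [← zpow_natCast, ← zpow_mul, mul_comm, zpow_mul, zpow_natCast, h2, one_zpow]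
    have h2 := RD.le_of_sylow hr hPn hPi h1
    rw [mP x hx]
    exact h2 (Subgroup.mem_zpowers _)
  have hjK : ∀ k ∈ K, j k ∈ L := fun k hk => (j_mem_JJ hE).2 hk
  have hEL : ∀ e ∈ E, e ∈ L := fun e he => Subgroup.mem_sup_left he
  -- the Sylow subgroup of `K`
  set T0 : Subgroup H := K ⊓ P'.comap j with hT0
  have mT0 : ∀ t, t ∈ T0 ↔ t ∈ K ∧ j t ∈ P' := fun t => Iff.rfl
  have hT0K : T0 ≤ K := inf_le_left
  have hT0p : IsPGroup r T0 := by
    apply RD.pgroup_of
    intro t ht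
    obtain ⟨n, hn⟩ := RD.pgroup_mem hP'p ((mT0 t).1 ht).2
    refine ⟨n, hE.inj ?_⟩
    rw [map_pow, hn, map_one]
  have hT0n : ∀ k ∈ K, ∀ t ∈ T0, k * t * k⁻¹ ∈ T0 := by
    intro k hk t ht
    refine (mT0 _).2 ⟨K.mul_mem (K.mul_mem hk ht.1) (K.inv_mem hk), ?_⟩
    rw [map_mul, map_mul, map_inv]
    exact hP'n _ (hjK k hk) _ ht.2
  have hT0c : ∀ x ∈ T0, ∀ y ∈ T0, x * y = y * x := by
    intro x hx y hy
    apply hE.inj
    rw [map_mul, map_mul]
    exact hP'c _ hx.2 _ hy.2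
  have hSY := CO.specSYL H r hr
  have hT0i : ¬ r ∣ T0.relIndex K := by
    obtain ⟨R, hR⟩ := hSY.1 K
    have hRT : R ≤ T0 := by
      intro x hx
      refine (mT0 x).2 ⟨hR.1 hx, hin _ (hjK x (hR.1 hx)) ?_⟩
      obtain ⟨n, hn⟩ := RD.pgroup_mem hR.2.1 hx
      exact ⟨n, by rw [← map_pow, hn, map_one]⟩
    intro hd
    apply hR.2.2
    rw [← Subgroup.relIndex_mul_relIndex R T0 K hRT hT0K]
    exact hd.mul_left _
  -- `T0` centralises `E`
  have hT0E : ∀ t ∈ T0, ∀ e ∈ E, j t * e = e * j t := by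
    intro t ht e he
    obtain ⟨y, hy, z, hz, rfl, hy2, m, hm, hzm⟩ := exists_decomp hr E he
    have hyP : y ∈ P' := hin y (hEL y hy) hy2
    have c1 : j t * y = y * j t := hP'c _ ht.2 _ hyP
    -- the commutator
    obtain ⟨c, hc⟩ : ∃ c, c = j t * z * (j t)⁻¹ * z⁻¹ := ⟨_, rfl⟩
    have hcE : c ∈ E := by
      rw [hc]
      exact E.mul_mem (hE.nor t z hz) (E.inv_mem hz)
    have hcP : c ∈ P' := by
      have : c = j t * (z * (j t)⁻¹ * z⁻¹) := by rw [hc]; group
      rw [this]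
      exact P'.mul_mem ht.2 (hP'n z (hEL z hz) _ (P'.inv_mem ht.2))
    obtain ⟨n, hn⟩ := RD.pgroup_mem hP'p hcP
    have hcz : c * z = z * c := hEr c hcE ⟨n, hn⟩ z hz ⟨m, hm, hzm⟩
    have h1 : (j t * z * (j t)⁻¹) ^ m = c ^ m * z ^ m := by
      have h2 : j t * z * (j t)⁻¹ = c * z := by rw [hc]; group
      rw [h2]
      exact (show Commute c z from hcz).mul_pow m
    rw [conj_pow, hzm, mul_one, mul_inv_cancel, mul_one] at h1
    have h3 : c = 1 := by
      have h4 : orderOf c ∣ m := orderOf_dvd_of_pow_eq_one h1.symm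
      have h5 : orderOf c ∣ r ^ n := orderOf_dvd_of_pow_eq_one hn
      have h6 : Nat.Coprime (r ^ n) m :=
        Nat.Coprime.pow_left _ ((Nat.Prime.coprime_iff_not_dvd hr).2 hm)
      have h7 : orderOf c ∣ 1 := by
        rw [← h6.gcd_eq_one]
        exact Nat.dvd_gcd h5 h4
      exact orderOf_eq_one_iff.1 (Nat.dvd_one.1 h7)
    have c2 : j t * z = z * j t := by
      rw [h3] at hc
      calc j t * z = (j t * z * (j t)⁻¹ * z⁻¹) * z * j t := by group
        _ = z * j t := by rw [← hc, one_mul]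
    rw [← mul_assoc, c1, mul_assoc, c2, mul_assoc]
  -- the Sylow subgroup of `D T0`
  have nK : Nrm K D := fun k hk x hx => h.Dn k (h.KS hk) x hx
  have nT0 : Nrm T0 D := nK.mono hT0K
  have iT0 : D ⊓ T0 = ⊥ := by
    rw [eq_bot_iff, ← h.inf]
    exact inf_le_inf_left D hT0K
  have hDT : D ⊔ T0 ≤ S := sup_le h.DS (hT0K.trans h.KS)
  have ri : (D ⊔ T0).relIndex S = T0.relIndex K := by
    have e1 := RD.card_rel hDT
    have e2 := RD.card_rel hT0K
    rw [XF.card_sup nT0 iT0, ← h.sup, XF.card_sup nK h.inf, ← e2, h.sup] at e1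
    have h3 : 0 < Nat.card D * Nat.card T0 := Nat.mul_pos Nat.card_pos Nat.card_pos
    apply Nat.eq_of_mul_eq_mul_left h3
    rw [e1]
    ring
  obtain ⟨T, hT⟩ := hSY.1 (D ⊔ T0)
  have hT1 : SylIn r S T := hSY.2.2.2.2.1 S (D ⊔ T0) T hDT (by rw [ri]; exact hT0i) hT
  have hT2 : SylIn r ⊤ T := hSY.2.2.2.2.1 ⊤ S T le_top
    (by rw [Subgroup.relIndex_top_right]; exact hri) hT1
  have hcomm : ∀ x ∈ D ⊔ T0, ∀ y ∈ D ⊔ T0, x * y * x⁻¹ * y⁻¹ ∈ D := by
    intro x hx y hy
    obtain ⟨d, hd, t, ht, rfl⟩ := (XF.mem_sup nT0).1 hx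
    obtain ⟨d', hd', t', ht', rfl⟩ := (XF.mem_sup nT0).1 hy
    have hc := hT0c t ht t' ht'
    have e1 : d * t * (d' * t') * (d * t)⁻¹ * (d' * t')⁻¹ =
        d * (t * d' * t⁻¹) * (t * t' * t⁻¹ * t'⁻¹) * (t' * d⁻¹ * t'⁻¹) * d'⁻¹ := by
      group
    have e2 : t * t' * t⁻¹ * t'⁻¹ = 1 := by rw [hc]; group
    rw [e1, e2, mul_one]
    exact D.mul_mem (D.mul_mem (D.mul_mem hd (nT0 t ht d' hd')) (nT0 t' ht' _ (D.inv_mem hd)))
      (D.inv_mem hd')
  have hle : D ⊔ T0 ≤ D ⊔ T := by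
    have hTle : D ⊔ T ≤ D ⊔ T0 := sup_le le_sup_left hT.1
    rw [← Subgroup.relIndex_eq_one]
    have h1 : (D ⊔ T).relIndex (D ⊔ T0) ∣ T.relIndex (D ⊔ T0) :=
      Subgroup.relIndex_dvd_of_le_left _ le_sup_right
    have h2 : (D ⊔ T).relIndex (D ⊔ T0) ∣ D.relIndex (D ⊔ T0) :=
      Subgroup.relIndex_dvd_of_le_left _ le_sup_left
    have h3 : D.relIndex (D ⊔ T0) = Nat.card T0 := by
      have e1 := RD.card_rel (le_sup_left : D ≤ D ⊔ T0)
      rw [XF.card_sup nT0 iT0] at e1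
      exact Nat.eq_of_mul_eq_mul_left Nat.card_pos e1
    rw [h3] at h2
    have : Fact r.Prime := ⟨hr⟩
    obtain ⟨k, hk⟩ := IsPGroup.iff_card.1 hT0p
    rw [hk] at h2
    have h6 : Nat.Coprime (r ^ k) (T.relIndex (D ⊔ T0)) :=
      Nat.Coprime.pow_left _ ((Nat.Prime.coprime_iff_not_dvd hr).2 hT.2.2)
    have h7 : (D ⊔ T).relIndex (D ⊔ T0) ∣ 1 := by
      rw [← h6.gcd_eq_one]
      exact Nat.dvd_gcd h2 h1
    exact Nat.dvd_one.1 h7
  refine ⟨T, hT2, hT.1.trans hDT, ?_, ?_, ?_⟩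
  · intro t ht e he
    obtain ⟨d, hd, t0, ht0, rfl⟩ := (XF.mem_sup nT0).1 (hT.1 ht)
    rw [map_mul, mul_assoc, hT0E t0 ht0 e he, ← mul_assoc, h.DE d hd e he, mul_assoc]
  · intro x hx y hy
    exact hcomm x (hT.1 hx) y (hT.1 hy)
  · intro s hs t ht
    apply hle
    rw [← h.sup] at hs
    have n1 : Nrm (D ⊔ K) (D ⊔ T0) := by
      apply Nrm.sup
      · exact nrm_le le_sup_left
      · exact nrm_sup_right nK hT0n
    exact n1 s hs t (hT.1 ht)

/-- The state inequality for a prestate. -/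
theorem Pre.ineq [Finite G] (hsol : Group.IsSolvable G) {Θ : Finset ℕ} (hM : MC G0 Θ)
    {j : H →* G} {E : Subgroup G} {Q0 : Set ℕ} {S D K : Subgroup H} (h : Pre G0 j E Q0 S D K)
    (hlt : Nat.card (JJ j E K) < Nat.card G0) :
    {r | r ∈ Θ ∧ (r ∈ Q0 ∨ r ∣ S.index)}.ncard + 1 ≤
      {r | r ∈ Θ ∧ ¬ (r ∈ Q0 ∨ r ∣ S.index) ∧ NAS (JJ j E K) r}.ncard := by
  have h1 := hM.ineq (J := JJ j E K) inferInstance hlt h.st
  have e1 : {r | r ∈ Θ ∧ r ∈ {r | r.Prime ∧ (r ∈ Q0 ∨ r ∣ S.index)}} =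
      {r | r ∈ Θ ∧ (r ∈ Q0 ∨ r ∣ S.index)} := by
    ext r
    constructor
    · rintro ⟨a, -, b⟩
      exact ⟨a, b⟩
    · rintro ⟨a, b⟩
      exact ⟨a, hM.prime r a, b⟩
  have e2 : {r | r ∈ Θ ∧ r ∉ {r | r.Prime ∧ (r ∈ Q0 ∨ r ∣ S.index)} ∧ NAS (JJ j E K) r} =
      {r | r ∈ Θ ∧ ¬ (r ∈ Q0 ∨ r ∣ S.index) ∧ NAS (JJ j E K) r} := by
    ext r
    constructor
    · rintro ⟨a, b, c⟩
      exact ⟨a, fun h => b ⟨hM.prime r a, h⟩, c⟩
    · rintro ⟨a, b, c⟩
      exact ⟨a, fun h => b h.2, c⟩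
  rw [e1, e2] at h1
  exact h1

/-- **Initial state**: a linear character `lam` of the normal subgroup `N`, `G = N E H`. -/
theorem Pre.lin [Finite G] {j : H →* G} {E N : Subgroup G} (hE : Emb j E) (hNn : N.Normal)
    (hNE : ∀ x ∈ N, ∀ e ∈ E, x * e = e * x) (hinf : N ⊓ JJ j E ⊤ = ⊥) (hsup : N ⊔ JJ j E ⊤ = ⊤)
    {lam : G → ℂ} (h1 : lam 1 = 1) (hm : ∀ x ∈ N, ∀ y ∈ N, lam (x * y) = lam x * lam y)
    {S : Subgroup H} (hS : ∀ h, h ∈ S ↔ ∀ x ∈ N, lam (j h * x * (j h)⁻¹) = lam x) :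
    Pre G j E ∅ S ⊥ S := by
  refine ⟨hE, bot_le, le_rfl, ?_, ?_, ?_, bot_sup_eq S, ?_⟩
  · intro s _ x hx
    rw [Subgroup.mem_bot] at hx ⊢
    rw [hx]; group
  · intro x hx e _
    rw [Subgroup.mem_bot] at hx
    rw [hx, map_one, one_mul, mul_one]
  · rw [bot_inf_eq]
  · have s1 : St (⊤ : Subgroup G) (JJ j E S) {r | r.Prime ∧ r ∣ (JJ j E S).relIndex (JJ j E ⊤)} := by
      refine lin_state (D := N) (β := lam) (fun l _ x hx => hNn.conj_mem x hx l) h1 hm hsup hinf
        (JJ_mono le_top) ?_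
      intro g hg
      obtain ⟨e, he, k, -, rfl⟩ := (mem_JJ hE).1 hg
      have e2 : ∀ x ∈ N, e * j k * x * (e * j k)⁻¹ = j k * x * (j k)⁻¹ := by
        intro x hx
        have e1 := hNE (j k * x * (j k)⁻¹) (hNn.conj_mem x hx _) e he
        calc e * j k * x * (e * j k)⁻¹ = e * (j k * x * (j k)⁻¹) * e⁻¹ := by group
          _ = (j k * x * (j k)⁻¹ * e) * e⁻¹ := by rw [e1]
          _ = j k * x * (j k)⁻¹ := by group
      have e3 : e * j k ∈ JJ j E S ↔ k ∈ S := by
        rw [← j_mem_JJ hE (K := S) (k := k)]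
        constructor
        · intro h5
          have h6 := (JJ j E S).mul_mem ((JJ j E S).inv_mem (Subgroup.mem_sup_left he)) h5
          rwa [inv_mul_cancel_left] at h6
        · intro h5
          exact (JJ j E S).mul_mem (Subgroup.mem_sup_left he) h5
      rw [e3, hS k]
      constructor
      · intro h5 x hx
        rw [e2 x hx, h5 x hx]
      · intro h5 x hx
        have := h5 x hx
        rwa [e2 x hx] at this
    have s2 := (St.equiv (Subgroup.topEquiv (G := G)).symm).trans s1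
    refine s2.mono ?_
    rintro r ⟨hr, h2 | h2⟩
    · exact h2.elim
    · refine Or.inr ⟨hr, ?_⟩
      rw [relIndex_JJ hE le_top, Subgroup.relIndex_top_right]
      exact h2

/-- **Initial state**: a fully ramified pair `(K, κ)` in the normal subgroup `P`, `G = P E H`. -/
theorem Pre.pair [Finite G] {j : H →* G} {E P K : Subgroup G} {κ : G → ℂ} (hE : Emb j E)
    (hp : APair ⊤ P K κ) (hPE : ∀ x ∈ P, ∀ e ∈ E, x * e = e * x) (hinf : P ⊓ JJ j E ⊤ = ⊥)
    (hsup : P ⊔ JJ j E ⊤ = ⊤) (hcop : (K.relIndex P).Coprime (Nat.card (JJ j E (⊤ : Subgroup H))))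
    {S : Subgroup H} (hS : ∀ h, h ∈ S ↔ FixK K κ (j h)) :
    Pre G j E {r | r ∣ K.relIndex P} S ⊥ S := by
  refine ⟨hE, bot_le, le_rfl, ?_, ?_, ?_, bot_sup_eq S, ?_⟩
  · intro s _ x hx
    rw [Subgroup.mem_bot] at hx ⊢
    rw [hx]; group
  · intro x hx e _
    rw [Subgroup.mem_bot] at hx
    rw [hx, map_one, one_mul, mul_one]
  · rw [bot_inf_eq]
  · have hPn : ∀ g : G, ∀ x ∈ P, g * x * g⁻¹ ∈ P := fun g x hx => hp.Fn g trivial x hx
    have s1 : St (⊤ : Subgroup G) (JJ j E S)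
        {r | r.Prime ∧ (r ∣ K.relIndex P ∨ r ∣ (JJ j E S).relIndex (JJ j E ⊤))} := by
      refine pair_state hp hsup hinf hcop (JJ_mono le_top) ?_
      intro g hg
      obtain ⟨e, he, k, -, rfl⟩ := (mem_JJ hE).1 hg
      have e2 : ∀ x ∈ K, e * j k * x * (e * j k)⁻¹ = j k * x * (j k)⁻¹ := by
        intro x hx
        have e1 := hPE (j k * x * (j k)⁻¹) (hPn _ x (hp.le hx)) e he
        calc e * j k * x * (e * j k)⁻¹ = e * (j k * x * (j k)⁻¹) * e⁻¹ := by group
          _ = (j k * x * (j k)⁻¹ * e) * e⁻¹ := by rw [e1]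
          _ = j k * x * (j k)⁻¹ := by group
      have e3 : e * j k ∈ JJ j E S ↔ k ∈ S := by
        rw [← j_mem_JJ hE (K := S) (k := k)]
        constructor
        · intro h5
          have h6 := (JJ j E S).mul_mem ((JJ j E S).inv_mem (Subgroup.mem_sup_left he)) h5
          rwa [inv_mul_cancel_left] at h6
        · intro h5
          exact (JJ j E S).mul_mem (Subgroup.mem_sup_left he) h5
      rw [e3, hS k]
      constructor
      · intro h5 x hx
        rw [e2 x hx]
        exact h5 x hx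
      · intro h5 x hx
        have := h5 x hx
        rwa [e2 x hx] at this
    have s2 := (St.equiv (Subgroup.topEquiv (G := G)).symm).trans s1
    refine s2.mono ?_
    rintro r ⟨hr, h2 | h2⟩
    · exact Or.inr ⟨hr, Or.inl h2⟩
    · refine Or.inr ⟨hr, Or.inr ?_⟩
      rw [relIndex_JJ hE le_top, Subgroup.relIndex_top_right]
      exact h2

end

end Pool.Agent.Lib.MPbe1941.XF.ST
end
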